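import Pool.Agent.PPS.Auto.Build

/-!
# Block codes
-/

namespace Pool.Agent.PPS

/-! ### Images of regular predicates under block codes -/

section image

variable {Γ B : Type} (c : Γ → List B) {k : ℕ} (hk : ∀ a, (c a).length = k)

include hk in
theorem length_flatMap (w : List Γ) : (w.flatMap c).length = k * w.length := by
  induction w with
  | nil => simp
  | cons a w ih =>
    rw [List.flatMap_cons, List.length_append, hk, ih, List.length_cons]
    ring

include hk in
theorem Reg.image [Finite B] (hk0 : 0 < k) {R : List Γ → Prop} (hR : Reg R) :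
    Reg (fun x => ∃ w, w.flatMap c = x ∧ R w) := by
  classical
  obtain ⟨σ, hσ, s₀, step, F, hF⟩ := hR
  have hfin : Finite {l : List B // l.length < k} := (List.finite_length_lt B k).to_subtype
  let st : Set σ × {l : List B // l.length < k} → B → Set σ × {l : List B // l.length < k} :=
    fun q a => if h : (q.2.1 ++ [a]).length < k then (q.1, ⟨q.2.1 ++ [a], h⟩)
      else ({q' | ∃ p ∈ q.1, ∃ g, c g = q.2.1 ++ [a] ∧ q' = step p g}, ⟨[], hk0⟩)
  refine ⟨Set σ × {l : List B // l.length < k}, inferInstance, ({s₀}, ⟨[], hk0⟩), st,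
    fun q => q.2.1 = [] ∧ ∃ p ∈ q.1, F p, fun x => ?_⟩
  have key : ∀ x : List B, ∃ y, x = y ++ (x.foldl st ({s₀}, ⟨[], hk0⟩)).2.1 ∧ k ∣ y.length ∧
      ∀ q, q ∈ (x.foldl st ({s₀}, ⟨[], hk0⟩)).1 ↔
        ∃ w : List Γ, w.flatMap c = y ∧ q = w.foldl step s₀ := by
    intro x
    induction x using List.reverseRecOn with
    | nil =>
      refine ⟨[], rfl, by simp, fun q => ?_⟩
      simp only [List.foldl_nil, Set.mem_singleton_iff]
      constructor
      · rintro rfl; exact ⟨[], rfl, rfl⟩
      · rintro ⟨w, hw, rfl⟩
        have h1 := length_flatMap c hk w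
        rw [hw, List.length_nil] at h1
        have h2 : w.length = 0 := by
          rcases Nat.mul_eq_zero.mp h1.symm with h | h
          · omega
          · exact h
        rw [List.length_eq_zero_iff.mp h2]; rfl
    | append_singleton x a ih =>
      obtain ⟨y, hy, hdvd, hq⟩ := ih
      rw [List.foldl_append, List.foldl_cons, List.foldl_nil]
      set r := x.foldl st ({s₀}, ⟨[], hk0⟩) with hr
      by_cases h : (r.2.1 ++ [a]).length < k
      · have h1 : st r a = (r.1, ⟨r.2.1 ++ [a], h⟩) := dif_pos h
        rw [h1]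
        refine ⟨y, ?_, hdvd, hq⟩
        show x ++ [a] = y ++ (r.2.1 ++ [a])
        rw [← List.append_assoc, ← hy]
      · have h1 : st r a = ({q' | ∃ p ∈ r.1, ∃ g, c g = r.2.1 ++ [a] ∧ q' = step p g},
            ⟨[], hk0⟩) := dif_neg h
        rw [h1]
        have hlen : (r.2.1 ++ [a]).length = k := by
          have := r.2.2
          rw [List.length_append, List.length_singleton] at h ⊢
          omega
        refine ⟨y ++ (r.2.1 ++ [a]), ?_, ?_, fun q' => ?_⟩
        · show x ++ [a] = y ++ (r.2.1 ++ [a]) ++ []
          rw [List.append_nil, ← List.append_assoc, ← hy]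
        · rw [List.length_append, hlen]
          exact Dvd.dvd.add hdvd (dvd_refl k)
        · show (∃ p ∈ r.1, ∃ g, c g = r.2.1 ++ [a] ∧ q' = step p g) ↔ _
          constructor
          · rintro ⟨p, hp, g, hg, rfl⟩
            obtain ⟨w, hw, rfl⟩ := (hq p).mp hp
            refine ⟨w ++ [g], ?_, ?_⟩
            · rw [List.flatMap_append, hw, List.flatMap_singleton, hg]
            · rw [List.foldl_append]; rfl
          · rintro ⟨w, hw, rfl⟩
            rcases List.eq_nil_or_concat w with rfl | ⟨w', g, rfl⟩
            · simp at hw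
            · rw [List.concat_eq_append] at hw ⊢
              rw [List.flatMap_append, List.flatMap_singleton] at hw
              obtain ⟨h2, h3⟩ := List.append_inj' hw (by rw [hk, hlen])
              refine ⟨w'.foldl step s₀, (hq _).mpr ⟨w', h2, rfl⟩, g, h3, ?_⟩
              rw [List.foldl_append]; rfl
  obtain ⟨y, hy, hdvd, hq⟩ := key x
  constructor
  · rintro ⟨w, rfl, hw⟩
    have h1 := length_flatMap c hk w
    have h2 := congrArg List.length hy
    rw [List.length_append, h1] at h2
    have h3 := ((w.flatMap c).foldl st ({s₀}, ⟨[], hk0⟩)).2.2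
    have h4 : k ∣ (((w.flatMap c).foldl st ({s₀}, ⟨[], hk0⟩)).2.1).length := by
      have : k ∣ y.length + (((w.flatMap c).foldl st ({s₀}, ⟨[], hk0⟩)).2.1).length := by
        rw [← h2]; exact Dvd.intro _ rfl
      exact (Nat.dvd_add_right hdvd).mp this
    have h5 := Nat.eq_zero_of_dvd_of_lt h4 h3
    have h6 := List.length_eq_zero_iff.mp h5
    rw [h6, List.append_nil] at hy
    refine ⟨h6, _, (hq _).mpr ⟨w, hy, rfl⟩, (hF w).mp hw⟩
  · rintro ⟨h1, p, hp, hFp⟩
    obtain ⟨w, hw, rfl⟩ := (hq p).mp hp
    rw [h1, List.append_nil] at hy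
    exact ⟨w, hw.trans hy.symm, (hF w).mpr hFp⟩

end image

/-! ### The extension of a permutation to all words of bits -/

section block

variable {Λ : Type} (c : Λ → List Bool) {k : ℕ} (hk : ∀ a, (c a).length = k) (hk0 : 0 < k)
  (hc : Function.Injective c)

include hk hk0 hc in
theorem flatMap_injective : Function.Injective (fun w : List Λ => w.flatMap c) := by
  intro w w' h
  have hlen : w.length = w'.length := by
    have h1 := congrArg List.length h
    simp only at h1
    rw [length_flatMap c hk, length_flatMap c hk] at h1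
    exact Nat.eq_of_mul_eq_mul_left hk0 h1
  induction w generalizing w' with
  | nil => exact (List.length_eq_zero_iff.mp hlen.symm).symm
  | cons a w ih =>
    cases w' with
    | nil => simp at hlen
    | cons b w' =>
      simp only [List.flatMap_cons] at h
      obtain ⟨h1, h2⟩ := List.append_inj h (by rw [hk, hk])
      rw [hc h1, ih h2 (by simpa using hlen)]

open Classical in
/-- The action on the code words; all other words are fixed. -/
noncomputable def blockF (f : List Λ → List Λ) (x : List Bool) : List Bool :=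
  if h : ∃ w : List Λ, w.flatMap c = x then (f h.choose).flatMap c else x

include hk hk0 hc in
theorem blockF_code (f : List Λ → List Λ) (w : List Λ) :
    blockF c f (w.flatMap c) = (f w).flatMap c := by
  unfold blockF
  have h : ∃ w' : List Λ, w'.flatMap c = w.flatMap c := ⟨w, rfl⟩
  rw [dif_pos h]
  have := flatMap_injective c hk hk0 hc (h.choose_spec : _ = w.flatMap c)
  rw [this]

theorem blockF_other (f : List Λ → List Λ) {x : List Bool}
    (h : ¬ ∃ w : List Λ, w.flatMap c = x) : blockF c f x = x := by
  unfold blockF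
  rw [dif_neg h]

include hk hk0 hc in
theorem blockF_inv {f g : List Λ → List Λ} (hfg : ∀ w, f (g w) = w) (x : List Bool) :
    blockF c f (blockF c g x) = x := by
  by_cases h : ∃ w : List Λ, w.flatMap c = x
  · obtain ⟨w, rfl⟩ := h
    rw [blockF_code c hk hk0 hc, blockF_code c hk hk0 hc, hfg]
  · rw [blockF_other c g h, blockF_other c f h]

/-- The permutation of the words of bits. -/
noncomputable def blockP (f : Equiv.Perm (List Λ)) : Equiv.Perm (List Bool) where
  toFun := blockF c f
  invFun := blockF c f.symm
  left_inv := blockF_inv c hk hk0 hc f.symm_apply_apply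
  right_inv := blockF_inv c hk hk0 hc f.apply_symm_apply

theorem blockP_code (f : Equiv.Perm (List Λ)) (w : List Λ) :
    blockP c hk hk0 hc f (w.flatMap c) = (f w).flatMap c := blockF_code c hk hk0 hc f w

theorem blockP_other (f : Equiv.Perm (List Λ)) {x : List Bool}
    (h : ¬ ∃ w : List Λ, w.flatMap c = x) : blockP c hk hk0 hc f x = x := blockF_other c f h

theorem blockP_iterate (f : Equiv.Perm (List Λ)) (j : ℕ) (w : List Λ) :
    (blockP c hk hk0 hc f)^[j] (w.flatMap c) = (f^[j] w).flatMap c := by
  induction j with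
  | zero => rfl
  | succ j ih => rw [Function.iterate_succ_apply', ih, blockP_code, Function.iterate_succ_apply']

/-- The code of pairs of letters. -/
def c2 (p : Λ × Λ) : List (Bool × Bool) := (c p.1).zip (c p.2)

include hk in
theorem length_c2 (p : Λ × Λ) : (c2 c p).length = k := by simp [c2, hk]

include hk in
theorem fst_c2 (u : List (Λ × Λ)) : (u.flatMap (c2 c)).map Prod.fst = (u.map Prod.fst).flatMap c := by
  induction u with
  | nil => rfl
  | cons p u ih =>
    rw [List.flatMap_cons, List.map_append, ih, List.map_cons, List.flatMap_cons]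
    unfold c2
    rw [List.map_fst_zip (by rw [hk, hk])]

include hk in
theorem snd_c2 (u : List (Λ × Λ)) : (u.flatMap (c2 c)).map Prod.snd = (u.map Prod.snd).flatMap c := by
  induction u with
  | nil => rfl
  | cons p u ih =>
    rw [List.flatMap_cons, List.map_append, ih, List.map_cons, List.flatMap_cons]
    unfold c2
    rw [List.map_snd_zip (by rw [hk, hk])]

include hk hk0 hc in
theorem aut_blockP {f : Equiv.Perm (List Λ)} (hf : Aut f) : Aut (blockP c hk hk0 hc f) := by
  have hlen : ∀ x, (blockP c hk hk0 hc f x).length = x.length := by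
    intro x
    by_cases h : ∃ w : List Λ, w.flatMap c = x
    · obtain ⟨w, rfl⟩ := h
      rw [blockP_code, length_flatMap c hk, length_flatMap c hk, hf.1]
    · rw [blockP_other c hk hk0 hc f h]
  refine ⟨hlen, ?_⟩
  have h1 := Reg.image (c2 c) (length_c2 c hk) hk0 hf.2
  have h2 := (Reg.image c hk hk0 (Reg.const (α := Λ) True)).comap (Prod.fst : Bool × Bool → Bool)
  have h3 := Reg2.eq (α := Bool)
  refine (h1.or (h2.not.and h3)).congr (fun w => ?_)
  constructor
  · intro h
    by_cases h4 : ∃ v : List Λ, v.flatMap c = w.map Prod.fst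
    · left
      obtain ⟨v, hv⟩ := h4
      rw [← hv, blockP_code] at h
      refine ⟨v.zip (f v), ?_, ?_⟩
      · have e1 := fst_c2 c hk (v.zip (f v))
        have e2 := snd_c2 c hk (v.zip (f v))
        rw [AP.fst_zip (hf.1 v).symm, hv] at e1
        rw [AP.snd_zip (hf.1 v).symm, h] at e2
        rw [← AP.zip_self ((v.zip (f v)).flatMap (c2 c)), e1, e2, AP.zip_self]
      · rw [AP.fst_zip (hf.1 v).symm, AP.snd_zip (hf.1 v).symm]
    · right
      rw [blockP_other c hk hk0 hc f h4] at h
      refine ⟨?_, h⟩
      rintro ⟨v, hv, -⟩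
      exact h4 ⟨v, hv⟩
  · rintro (⟨u, rfl, hu⟩ | ⟨h4, h5⟩)
    · rw [fst_c2 c hk, snd_c2 c hk, blockP_code, hu]
    · rw [blockP_other c hk hk0 hc f]
      · exact h5
      · rintro ⟨v, hv⟩
        exact h4 ⟨v, hv, trivial⟩

end block

/-- A block code for a finite alphabet. -/
theorem exists_code (Λ : Type) [Finite Λ] : ∃ (k : ℕ) (c : Λ → List Bool), 0 < k ∧
    (∀ a, (c a).length = k) ∧ Function.Injective c := by
  obtain ⟨N, ⟨e⟩⟩ := Finite.exists_equiv_fin Λ
  refine ⟨N + 1, fun a => List.ofFn (fun i : Fin (N + 1) => decide (i.val = (e a).val)),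
    Nat.succ_pos N, fun a => by simp, fun a b h => ?_⟩
  have h1 := List.ofFn_injective h
  have h2 := congrFun h1 ⟨(e a).val, by omega⟩
  simp only [decide_true] at h2
  have h3 : (e a).val = (e b).val := by simpa using h2.symm
  exact e.injective (Fin.ext h3)

/-! ### Regular languages -/

/-- Regular predicates as regular languages. -/
theorem reg_iff_isRegular {α : Type} {R : List α → Prop} :
    Reg R ↔ Language.IsRegular ({w | R w} : Language α) := by
  constructor
  · rintro ⟨σ, hσ, s₀, step, F, hF⟩
    have := Fintype.ofFinite σ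
    refine ⟨σ, inferInstance, ⟨step, s₀, {q | F q}⟩, ?_⟩
    ext w
    rw [DFA.mem_accepts]
    exact (hF w).symm
  · rintro ⟨σ, hσ, A, hA⟩
    refine ⟨σ, inferInstance, A.start, A.step, fun q => q ∈ A.accept, fun w => ?_⟩
    have h := Set.ext_iff.mp hA w
    exact h.symm

end Pool.Agent.PPS
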