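import Pool.Agent.PPS.Auto.Words

/-!
# Permutations of words with regular graph
-/

namespace Pool.Agent.PPS

variable {α β : Type}

/-- Length-preserving permutations of words with regular graph. -/
structure AP (α : Type) where
  /-- the permutation -/
  f : Equiv.Perm (List α)
  aut : Aut f

namespace AP

theorem length_f (A : AP α) (w : List α) : (A.f w).length = w.length := A.aut.1 w

/-- The inverse. -/
def inv (A : AP α) : AP α := ⟨A.f.symm, A.aut.symm⟩

/-- The composition: first `B`, then `A`. -/
def mul (A B : AP α) : AP α := ⟨B.f.trans A.f, A.aut.comp B.aut⟩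

@[simp] theorem mul_apply (A B : AP α) (w : List α) : (A.mul B).f w = A.f (B.f w) := rfl

theorem zip_self (w : List (α × β)) : (w.map Prod.fst).zip (w.map Prod.snd) = w := by
  rw [List.zip_map']
  simp

theorem fst_zip {κ : List α} {δ : List β} (h : κ.length = δ.length) :
    (κ.zip δ).map Prod.fst = κ := List.map_fst_zip h.le

theorem snd_zip {κ : List α} {δ : List β} (h : κ.length = δ.length) :
    (κ.zip δ).map Prod.snd = δ := List.map_snd_zip h.ge

/-- Every word of pairs is a zip. -/
theorem exists_zip' (w : List (α × β)) : ∃ (κ : List α) (δ : List β), κ.length = δ.length ∧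
    w = κ.zip δ := ⟨_, _, by simp, (zip_self w).symm⟩

open Classical in
/-- The action on the second component, controlled by the first one. -/
noncomputable def ctrlF (p : List α → Prop) (G : List β → List β) (w : List (α × β)) :
    List (α × β) :=
  if p (w.map Prod.fst) then (w.map Prod.fst).zip (G (w.map Prod.snd)) else w

open Classical in
theorem ctrlF_zip {p : List α → Prop} {G : List β → List β} {κ : List α} {δ : List β}
    (h : κ.length = δ.length) :
    ctrlF p G (κ.zip δ) = κ.zip (if p κ then G δ else δ) := by
  unfold ctrlF
  rw [fst_zip h, snd_zip h]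
  split_ifs <;> rfl

/-- The controlled permutation. -/
noncomputable def ctrl (p : List α → Prop) (hp : Reg p) (A : AP β) : AP (α × β) where
  f :=
    { toFun := ctrlF p A.f
      invFun := ctrlF p A.f.symm
      left_inv := by
        intro w
        obtain ⟨κ, δ, h, rfl⟩ := exists_zip' w
        classical
        rw [ctrlF_zip h]
        have h' : κ.length = (if p κ then A.f δ else δ).length := by
          split_ifs
          · rw [A.length_f, h]
          · exact h
        rw [ctrlF_zip h']
        split_ifs
        · rw [A.f.symm_apply_apply]
        · rfl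
      right_inv := by
        intro w
        obtain ⟨κ, δ, h, rfl⟩ := exists_zip' w
        classical
        rw [ctrlF_zip h]
        have h' : κ.length = (if p κ then A.f.symm δ else δ).length := by
          split_ifs
          · exact h.trans (A.inv.length_f δ).symm
          · exact h
        rw [ctrlF_zip h']
        split_ifs
        · rw [A.f.apply_symm_apply]
        · rfl }
  aut := by
    classical
    exact Aut.ite ((Aut.map Prod.fst).reg hp)
      ((Aut.map Prod.fst).zip (A.aut.comp (Aut.map Prod.snd))) Aut.id

open Classical in
theorem ctrl_zip {p : List α → Prop} {hp : Reg p} {A : AP β} {κ : List α} {δ : List β}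
    (h : κ.length = δ.length) :
    (ctrl p hp A).f (κ.zip δ) = κ.zip (if p κ then A.f δ else δ) := ctrlF_zip h

/-- The action on the first component. -/
def fstF (G : List α → List α) (w : List (α × β)) : List (α × β) :=
  (G (w.map Prod.fst)).zip (w.map Prod.snd)

theorem fstF_zip {G : List α → List α} {κ : List α} {δ : List β}
    (h : κ.length = δ.length) : fstF G (κ.zip δ) = (G κ).zip δ := by
  unfold fstF
  rw [fst_zip h, snd_zip h]

/-- The action on the first component. -/
def onFst (A : AP α) : AP (α × β) where
  f :=
    { toFun := fstF A.f
      invFun := fstF A.f.symm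
      left_inv := by
        intro w
        obtain ⟨κ, δ, h, rfl⟩ := exists_zip' w
        rw [fstF_zip h, fstF_zip (by rw [A.length_f, h]), A.f.symm_apply_apply]
      right_inv := by
        intro w
        obtain ⟨κ, δ, h, rfl⟩ := exists_zip' w
        rw [fstF_zip h, fstF_zip (by rw [← h]; exact A.inv.length_f κ), A.f.apply_symm_apply] }
  aut := (A.aut.comp (Aut.map Prod.fst)).zip (Aut.map Prod.snd)

theorem onFst_zip {A : AP α} {κ : List α} {δ : List β} (h : κ.length = δ.length) :
    (onFst A).f (κ.zip δ) = (A.f κ).zip δ := fstF_zip h

/-- The inversion of the first bit. -/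
def flipHd : AP Bool where
  f :=
    { toFun := fun w => w.modifyHead (fun b => !b)
      invFun := fun w => w.modifyHead (fun b => !b)
      left_inv := by intro w; cases w <;> simp
      right_inv := by intro w; cases w <;> simp }
  aut := Aut.modHead _

theorem flipHd_cons (b : Bool) (w : List Bool) : flipHd.f (b :: w) = (!b) :: w := rfl

/-- The tour. -/
noncomputable def tour {L : Type} [Finite L] {N : ℕ} (e : L ≃ Fin N) {s : List L → List L}
    (hs : Aut s) : AP (L × Bool) where
  f := permOf (EW e s) (EW_injective hs.1) (aut_EW (e := e) hs.1 hs).1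
  aut := aut_EW hs.1 hs

end AP

/-! ### Counters -/

section counter

variable {M : ℕ} [NeZero M]

/-- The lowest `n` digits of `t` in base `M`, most significant digit first. -/
def dig (M : ℕ) [NeZero M] : ℕ → ℕ → List (Fin M)
  | 0, _ => []
  | n + 1, t => Fin.ofNat M (t / M ^ n) :: dig M n t

@[simp] theorem length_dig (n t : ℕ) : (dig M n t).length = n := by
  induction n with
  | zero => rfl
  | succ n ih => simp [dig, ih]

theorem num_dig (n t : ℕ) : num (dig M n t) = t % M ^ n := by
  induction n with
  | zero => simp [dig, num, Nat.mod_one]
  | succ n ih =>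
    simp only [dig, num, length_dig, ih]
    rw [pow_succ, Nat.mod_mul]
    simp only [Fin.ofNat_eq_cast, Fin.val_natCast]
    ring

theorem dig_num (w : List (Fin M)) : dig M w.length (num w) = w := by
  apply num_inj (by simp)
  rw [num_dig, Nat.mod_eq_of_lt (num_lt w)]

theorem dig_mod (n t : ℕ) : dig M n (t % M ^ n) = dig M n t := by
  apply num_inj (by simp)
  rw [num_dig, num_dig, Nat.mod_mod]

theorem dig_congr {n t t' : ℕ} (h : t % M ^ n = t' % M ^ n) : dig M n t = dig M n t' := by
  rw [← dig_mod, h, dig_mod]

/-- The increment of a counter: the cyclic successor. -/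
noncomputable def incW (w : List (Fin M)) : List (Fin M) :=
  cs (fun w : List (Fin M) => some w.length) num w

omit [NeZero M] in
theorem incW_inj (x y : List (Fin M)) (_ : (some x.length : Option ℕ) ≠ none)
    (h : (some x.length : Option ℕ) = some y.length) (h' : num x = num y) : x = y :=
  num_inj (by simpa using h) h'

omit [NeZero M] in
theorem incW_fin (x : List (Fin M)) (_ : (some x.length : Option ℕ) ≠ none) :
    {y : List (Fin M) | (some y.length : Option ℕ) = some x.length}.Finite := by
  refine (finite_length x.length).subset (fun y hy => ?_)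
  simpa using hy

theorem incW_dig (n t : ℕ) : incW (dig M n t) = dig M n (t + 1) := by
  have hpos : 0 < M ^ n := by have := NeZero.pos M; positivity
  have key : IsSucc (fun w : List (Fin M) => some w.length) num (dig M n t)
      (dig M n (t + 1)) := by
    refine ⟨by simp, ?_⟩
    rw [num_dig, num_dig]
    have hlt := Nat.mod_lt t hpos
    rcases Nat.lt_or_ge (t % M ^ n + 1) (M ^ n) with h | h
    · left
      have h1 : (t + 1) % M ^ n = t % M ^ n + 1 := by
        have h2 : 1 < M ^ n := lt_of_le_of_lt (Nat.succ_le_succ (Nat.zero_le _)) h
        rw [Nat.add_mod, Nat.mod_eq_of_lt h2, Nat.mod_eq_of_lt h]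
      rw [h1]
      refine ⟨Nat.lt_succ_self _, fun z _ h2 => ?_⟩
      omega
    · right
      have h1 : (t + 1) % M ^ n = 0 := by
        have h2 : t % M ^ n + 1 = M ^ n := by omega
        rcases Nat.eq_or_lt_of_le (show 1 ≤ M ^ n by omega) with h3 | h3
        · rw [← h3]; exact Nat.mod_one _
        · rw [Nat.add_mod, Nat.mod_eq_of_lt (a := 1) h3, h2, Nat.mod_self]
      rw [h1]
      refine ⟨fun z hz => ?_, fun z _ => by omega⟩
      have h3 := num_lt z
      have h4 : z.length = n := by simpa using hz
      rw [h4] at h3
      omega
  exact cs_eq _ _ incW_inj incW_fin (by simp) key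

omit [NeZero M] in
theorem aut_incW : Aut (incW : List (Fin M) → List (Fin M)) := by
  apply aut_cs
  · exact incW_inj
  · intro x y _ h; simpa using h
  · refine (Reg.const True).congr (fun w => ?_)
    simp
  · refine (Reg.const False).congr (fun w => ?_)
    simp
  · refine (reg_num_lt M).congr (fun w => ?_)
    simp

/-- The counter as a permutation. -/
noncomputable def AP.counter (M : ℕ) [NeZero M] : AP (Fin M) where
  f := permOf incW (cs_injective _ _ incW_inj incW_fin) aut_incW.1
  aut := aut_incW

theorem AP.counter_dig (n t : ℕ) : (AP.counter M).f (dig M n t) = dig M n (t + 1) :=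
  incW_dig n t

end counter

end Pool.Agent.PPS
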