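import Pool.Agent.PPS.Auto.Reg

/-!
# Cyclic successors
-/

namespace Pool.Agent.PPS

section cyc

variable {X V K : Type} [LinearOrder K] (v : X → Option V) (key : X → K)

/-- `y` is the cyclic successor of `x` in its class, with respect to the order of the keys. -/
def IsSucc (x y : X) : Prop :=
  v y = v x ∧ ((key x < key y ∧ ∀ z, v z = v x → key x < key z → ¬ key z < key y) ∨
    ((∀ z, v z = v x → ¬ key x < key z) ∧ ∀ z, v z = v x → ¬ key z < key y))

variable (hinj : ∀ x y, v x ≠ none → v x = v y → key x = key y → x = y)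
  (hfin : ∀ x, v x ≠ none → {y | v y = v x}.Finite)

include hfin in
theorem exists_isSucc (x : X) (hx : v x ≠ none) : ∃ y, IsSucc v key x y := by
  by_cases h : ∃ z, v z = v x ∧ key x < key z
  · obtain ⟨z, hz⟩ := h
    have hf : {y | v y = v x ∧ key x < key y}.Finite := (hfin x hx).subset (fun y hy => hy.1)
    obtain ⟨y, hy, hmin⟩ := hf.exists_minimalFor key _ ⟨z, hz⟩
    refine ⟨y, hy.1, Or.inl ⟨hy.2, fun z h1 h2 h3 => ?_⟩⟩
    exact absurd (hmin ⟨h1, h2⟩ h3.le) (not_le_of_gt h3)
  · push Not at h
    obtain ⟨y, hy, hmin⟩ := (hfin x hx).exists_minimalFor key _ ⟨x, rfl⟩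
    refine ⟨y, hy, Or.inr ⟨fun z h1 => not_lt_of_ge (h z h1), fun z h1 h3 => ?_⟩⟩
    exact absurd (hmin h1 h3.le) (not_le_of_gt h3)

include hinj in
theorem isSucc_unique {x y y' : X} (hx : v x ≠ none) (h : IsSucc v key x y)
    (h' : IsSucc v key x y') : y = y' := by
  obtain ⟨h1, h2⟩ := h
  obtain ⟨h1', h2'⟩ := h'
  apply hinj y y' (by rw [h1]; exact hx) (by rw [h1, h1'])
  rcases h2 with ⟨h3, h4⟩ | ⟨h3, h4⟩ <;> rcases h2' with ⟨h3', h4'⟩ | ⟨h3', h4'⟩
  · exact le_antisymm (not_lt.mp (h4 y' h1' h3')) (not_lt.mp (h4' y h1 h3))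
  · exact absurd h3 (h3' y h1)
  · exact absurd h3' (h3 y' h1')
  · exact le_antisymm (not_lt.mp (h4 y' h1')) (not_lt.mp (h4' y h1))

include hinj in
theorem isSucc_inj {x x' y : X} (hx : v x ≠ none) (h : IsSucc v key x y)
    (h' : IsSucc v key x' y) : x = x' := by
  obtain ⟨h1, h2⟩ := h
  obtain ⟨h1', h2'⟩ := h'
  have hxx : v x = v x' := h1.symm.trans h1'
  apply hinj x x' hx hxx
  have main : ∀ a b : X, v a = v b → v y = v a → IsSucc v key a y → IsSucc v key b y →
      ¬ key a < key b := by
    rintro a b hab hya ⟨-, ha⟩ ⟨-, hb⟩ hlt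
    rcases ha with ⟨ha1, ha2⟩ | ⟨ha1, ha2⟩
    · have h3 := not_lt.mp (ha2 b hab.symm hlt)
      rcases hb with ⟨hb1, -⟩ | ⟨-, hb2⟩
      · exact absurd hb1 (not_lt_of_ge h3)
      · exact hb2 a hab ha1
    · exact ha1 b hab.symm hlt
  exact le_antisymm (not_lt.mp (main x' x hxx.symm h1' ⟨h1', h2'⟩ ⟨h1, h2⟩))
    (not_lt.mp (main x x' hxx h1 ⟨h1, h2⟩ ⟨h1', h2'⟩))

open Classical in
/-- The cyclic successor in the class; an element without class is fixed. -/
noncomputable def cs (x : X) : X :=
  if h : v x ≠ none ∧ ∃ y, IsSucc v key x y then h.2.choose else x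

theorem cs_of_none {x : X} (hx : v x = none) : cs v key x = x := by
  unfold cs
  rw [dif_neg]
  rintro ⟨h, -⟩
  exact h hx

include hfin in
theorem cs_spec {x : X} (hx : v x ≠ none) : IsSucc v key x (cs v key x) := by
  unfold cs
  have h : v x ≠ none ∧ ∃ y, IsSucc v key x y := ⟨hx, exists_isSucc v key hfin x hx⟩
  rw [dif_pos h]
  exact h.2.choose_spec

include hfin in
theorem v_cs (x : X) : v (cs v key x) = v x := by
  by_cases hx : v x = none
  · rw [cs_of_none v key hx]
  · exact (cs_spec v key hfin hx).1

include hinj hfin in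
theorem cs_eq {x y : X} (hx : v x ≠ none) (h : IsSucc v key x y) : cs v key x = y :=
  isSucc_unique v key hinj hx (cs_spec v key hfin hx) h

include hinj hfin in
theorem cs_injective : Function.Injective (cs v key) := by
  intro x x' h
  have h1 : v x = v x' := by rw [← v_cs v key hfin x, h, v_cs v key hfin x']
  by_cases hx : v x = none
  · rw [cs_of_none v key hx, cs_of_none v key (h1 ▸ hx)] at h
    exact h
  · have hx' : v x' ≠ none := h1 ▸ hx
    have h2 := cs_spec v key hfin hx
    rw [h] at h2
    exact isSucc_inj v key hinj hx h2 (cs_spec v key hfin hx')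

end cyc

/-! ### Finite sets of words -/

theorem finite_length {α : Type} [Finite α] (n : ℕ) : {w : List α | w.length = n}.Finite :=
  List.finite_length_eq α n

theorem bijective_of_injective {α : Type} [Finite α] {F : List α → List α}
    (hinj : Function.Injective F) (hlen : ∀ w, (F w).length = w.length) :
    Function.Bijective F := by
  refine ⟨hinj, fun y => ?_⟩
  have hfin : Finite {w : List α // w.length = y.length} := (finite_length y.length).to_subtype
  let G : {w : List α // w.length = y.length} → {w : List α // w.length = y.length} :=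
    fun w => ⟨F w.1, by rw [hlen]; exact w.2⟩
  have hG : Function.Injective G := by
    intro a b h
    exact Subtype.ext (hinj (congrArg Subtype.val h))
  obtain ⟨x, hx⟩ := (Finite.injective_iff_surjective.mp hG) ⟨y, rfl⟩
  exact ⟨x.1, congrArg Subtype.val hx⟩

/-- A length-preserving injective function as a permutation. -/
noncomputable def permOf {α : Type} [Finite α] (F : List α → List α)
    (hinj : Function.Injective F) (hlen : ∀ w, (F w).length = w.length) :
    Equiv.Perm (List α) := Equiv.ofBijective F (bijective_of_injective hinj hlen)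

@[simp] theorem permOf_apply {α : Type} [Finite α] (F : List α → List α)
    (hinj : Function.Injective F) (hlen : ∀ w, (F w).length = w.length) (w : List α) :
    permOf F hinj hlen w = F w := rfl

/-! ### Cyclic successors of words -/

section words

variable {α V K : Type} [Finite α] [LinearOrder K] (v : List α → Option V)
  (key : List α → K)

theorem class_finite (hlen : ∀ x y, v x ≠ none → v x = v y → x.length = y.length)
    (x : List α) (hx : v x ≠ none) : {y | v y = v x}.Finite :=
  (finite_length x.length).subset (fun y hy => (hlen x y hx hy.symm).symm)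

theorem length_cs (hlen : ∀ x y, v x ≠ none → v x = v y → x.length = y.length)
    (x : List α) : (cs v key x).length = x.length := by
  by_cases hx : v x = none
  · rw [cs_of_none v key hx]
  · exact (hlen x _ hx (v_cs v key (class_finite v hlen) x).symm).symm

theorem aut_cs (hinj : ∀ x y, v x ≠ none → v x = v y → key x = key y → x = y)
    (hlen : ∀ x y, v x ≠ none → v x = v y → x.length = y.length)
    (h1 : Reg2 (fun x y => v x = v y)) (h2 : Reg (fun x => v x = none))
    (h3 : Reg2 (fun x y => v x = v y ∧ v x ≠ none ∧ key x < key y)) :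
    Aut (cs v key) := by
  have hfin := class_finite v hlen
  refine Aut.of_reg2 (R := fun x y => (v x = none ∧ y = x) ∨ (v x ≠ none ∧ (v y = v x ∧
    (((v x = v y ∧ v x ≠ none ∧ key x < key y) ∧ ∀ z, z.length = x.length →
      (v x = v z ∧ v x ≠ none ∧ key x < key z) → ¬ (v z = v y ∧ v z ≠ none ∧ key z < key y)) ∨
    ((∀ z, z.length = x.length → ¬ (v x = v z ∧ v x ≠ none ∧ key x < key z)) ∧
      ∀ z, z.length = x.length → v z = v x → ¬ (v z = v y ∧ v z ≠ none ∧ key z < key y))))))
    (length_cs v key hlen) ?_ ?_
  · intro x y hxy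
    by_cases hx : v x = none
    · rw [cs_of_none v key hx]
      simp [hx, eq_comm]
    · have key1 : cs v key x = y ↔ IsSucc v key x y :=
        ⟨fun h => h ▸ cs_spec v key hfin hx, cs_eq v key hinj hfin hx⟩
      rw [key1]
      unfold IsSucc
      simp only [hx, false_and, false_or, ne_eq, not_false_eq_true, true_and]
      constructor
      · rintro ⟨h4, h5⟩
        refine ⟨h4, ?_⟩
        rcases h5 with ⟨h5, h6⟩ | ⟨h5, h6⟩
        · left
          exact ⟨⟨h4.symm, h5⟩, fun z _ h7 h8 => h6 z h7.1.symm h7.2 h8.2.2⟩
        · right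
          exact ⟨fun z _ h7 => h5 z h7.1.symm h7.2, fun z _ h7 h8 => h6 z h7 h8.2.2⟩
      · rintro ⟨h4, h5⟩
        refine ⟨h4, ?_⟩
        rcases h5 with ⟨⟨-, h5⟩, h6⟩ | ⟨h5, h6⟩
        · left
          refine ⟨h5, fun z h7 h8 h9 => ?_⟩
          exact h6 z (hlen x z hx h7.symm).symm ⟨h7.symm, h8⟩
            ⟨h7.trans h4.symm, by rw [h7]; exact hx, h9⟩
        · right
          refine ⟨fun z h7 h8 => h5 z (hlen x z hx h7.symm).symm ⟨h7.symm, h8⟩,
            fun z h7 h8 => h6 z (hlen x z hx h7.symm).symm h7
              ⟨h7.trans h4.symm, by rw [h7]; exact hx, h8⟩⟩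
  · -- regularity
    have A1 : ∀ {δ : Type} (φ ψ : δ → α), Reg (fun u : List δ => v (u.map φ) = v (u.map ψ)) :=
      fun φ ψ => h1.app (Aut.map φ) (Aut.map ψ)
    have A2 : ∀ {δ : Type} (φ : δ → α), Reg (fun u : List δ => v (u.map φ) = none) :=
      fun φ => (Aut.map φ).reg h2
    have A3 : ∀ {δ : Type} (φ ψ : δ → α), Reg (fun u : List δ =>
        v (u.map φ) = v (u.map ψ) ∧ v (u.map φ) ≠ none ∧ key (u.map φ) < key (u.map ψ)) :=
      fun φ ψ => h3.app (Aut.map φ) (Aut.map ψ)
    have B1 : Reg (fun u : List (α × α) => ∀ z : List α, z.length = u.length →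
        (v (u.map Prod.fst) = v z ∧ v (u.map Prod.fst) ≠ none ∧
          key (u.map Prod.fst) < key z) →
        ¬ (v z = v (u.map Prod.snd) ∧ v z ≠ none ∧ key z < key (u.map Prod.snd))) := by
      refine Reg2.all ((((A3 (fun t : (α × α) × α => t.1.1) (fun t => t.2)).imp
        (A3 (fun t : (α × α) × α => t.2) (fun t => t.1.2)).not)).congr (fun u => ?_))
      simp only [List.map_map]
      rfl
    have B2 : Reg (fun u : List (α × α) => ∀ z : List α, z.length = u.length →
        ¬ (v (u.map Prod.fst) = v z ∧ v (u.map Prod.fst) ≠ none ∧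
          key (u.map Prod.fst) < key z)) := by
      refine Reg2.all (((A3 (fun t : (α × α) × α => t.1.1) (fun t => t.2)).not).congr
        (fun u => ?_))
      simp only [List.map_map]
      rfl
    have B3 : Reg (fun u : List (α × α) => ∀ z : List α, z.length = u.length →
        v z = v (u.map Prod.fst) →
        ¬ (v z = v (u.map Prod.snd) ∧ v z ≠ none ∧ key z < key (u.map Prod.snd))) := by
      refine Reg2.all ((((A1 (fun t : (α × α) × α => t.2) (fun t => t.1.1)).imp
        (A3 (fun t : (α × α) × α => t.2) (fun t => t.1.2)).not)).congr (fun u => ?_))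
      simp only [List.map_map]
      rfl
    have C1 : Reg (fun u : List (α × α) => u.map Prod.snd = u.map Prod.fst) :=
      (Reg2.eq (α := α)).app (Aut.map Prod.snd) (Aut.map Prod.fst)
    refine ((((A2 Prod.fst).and C1).or ((A2 Prod.fst).not.and ((A1 Prod.snd Prod.fst).and
      (((A3 Prod.fst Prod.snd).and B1).or (B2.and B3)))))).congr (fun u => ?_)
    simp only [List.length_map]

end words

/-! ### The numerical order -/

/-- The number with the given digits in base `N`, most significant digit first. -/
def num {N : ℕ} : List (Fin N) → ℕ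
  | [] => 0
  | a :: w => a * N ^ w.length + num w

theorem num_lt {N : ℕ} (w : List (Fin N)) : num w < N ^ w.length := by
  induction w with
  | nil => simp [num]
  | cons a w ih =>
    simp only [num, List.length_cons, pow_succ]
    have h1 : (a : ℕ) + 1 ≤ N := a.2
    have h2 : ((a : ℕ) + 1) * N ^ w.length ≤ N * N ^ w.length := Nat.mul_le_mul_right _ h1
    rw [Nat.add_mul, Nat.one_mul] at h2
    rw [Nat.mul_comm (N ^ w.length) N]
    omega

theorem num_inj {N : ℕ} {x y : List (Fin N)} (h : x.length = y.length)
    (h' : num x = num y) : x = y := by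
  induction x generalizing y with
  | nil => exact (List.length_eq_zero_iff.mp h.symm).symm
  | cons a x ih =>
    cases y with
    | nil => simp at h
    | cons b y =>
      simp only [List.length_cons, Nat.add_right_cancel_iff] at h
      simp only [num, h] at h'
      have h1 := num_lt x
      have h2 := num_lt y
      rw [h] at h1
      have hab : (a : ℕ) = b := by
        have e1 : ((a : ℕ) * N ^ y.length + num x) / N ^ y.length = a := by
          rw [Nat.mul_comm, Nat.mul_add_div (by omega), Nat.div_eq_of_lt h1, Nat.add_zero]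
        have e2 : ((b : ℕ) * N ^ y.length + num y) / N ^ y.length = b := by
          rw [Nat.mul_comm, Nat.mul_add_div (by omega), Nat.div_eq_of_lt h2, Nat.add_zero]
        rw [← e1, h', e2]
      have h3 : num x = num y := by rw [hab] at h'; omega
      rw [Fin.ext hab, ih h h3]

theorem num_cons_lt {N : ℕ} {a b : Fin N} {x y : List (Fin N)} (h : x.length = y.length) :
    num (a :: x) < num (b :: y) ↔ a < b ∨ (a = b ∧ num x < num y) := by
  simp only [num, h]
  have h1 := num_lt x
  have h2 := num_lt y
  rw [h] at h1
  rcases lt_trichotomy a b with hab | rfl | hab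
  · simp only [hab, true_or, iff_true]
    have : ((a : ℕ) + 1) * N ^ y.length ≤ b * N ^ y.length := Nat.mul_le_mul_right _ hab
    rw [Nat.add_mul, Nat.one_mul] at this
    omega
  · simp
  · have : ((b : ℕ) + 1) * N ^ y.length ≤ a * N ^ y.length := Nat.mul_le_mul_right _ hab
    rw [Nat.add_mul, Nat.one_mul] at this
    constructor
    · intro h'; omega
    · rintro (h' | ⟨h', -⟩)
      · exact absurd h' (not_lt_of_gt hab)
      · exact absurd h' (ne_of_gt hab)

theorem reg_num_lt (N : ℕ) : Reg2 (fun x y : List (Fin N) => num x < num y) := by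
  refine ⟨Option Bool, inferInstance, none, fun q a => match q with
    | some b => some b
    | none => if a.1 < a.2 then some true else if a.2 < a.1 then some false else none,
    fun q => q = some true, fun w => ?_⟩
  have hs : ∀ (w : List (Fin N × Fin N)) (b : Bool), w.foldl (fun (q : Option Bool) a =>
      match q with
      | some b => some b
      | none => if a.1 < a.2 then some true else if a.2 < a.1 then some false else none)
      (some b) = some b := by
    intro w
    induction w with
    | nil => intro b; rfl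
    | cons a w ih => intro b; rw [List.foldl_cons]; exact ih b
  induction w with
  | nil => simp [num]
  | cons a w ih =>
    beta_reduce at ih ⊢
    rw [List.foldl_cons, List.map_cons, List.map_cons, num_cons_lt (by simp)]
    rcases lt_trichotomy a.1 a.2 with h | h | h
    · simp only [h, if_true, hs, true_or]
    · have h1 : ¬ a.1 < a.2 := by rw [h]; exact lt_irrefl _
      have h2 : ¬ a.2 < a.1 := by rw [h]; exact lt_irrefl _
      simp only [if_neg h1, if_neg h2]
      refine Iff.trans ?_ ih
      simp [h]
    · have h1 : ¬ a.1 < a.2 := not_lt_of_gt h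
      have h2 : a.1 ≠ a.2 := ne_of_gt h
      simp only [h1, h, if_false, if_true, hs, h2, false_and, or_self]
      simp

end Pool.Agent.PPS
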