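import Pool.Agent.PPS.Auto.Block
import Pool.Agent.PPS.Codes

/-!
# Evaluation of functions with regular graph in polynomial time
-/

namespace Pool.Agent.PPS

theorem getD_ofFn' {β : Type} {n : ℕ} (F : Fin n → β) (j : Fin n) (d : β) :
    (List.ofFn F).getD j d = F j := by
  rw [List.getD_eq_getElem?_getD]
  simp

section eval

variable {σ : Type} {N : ℕ} (en : σ ≃ Fin N) (step : σ → Bool × Bool → σ) (F : σ → Bool)

/-- One entry of the table. -/
def evEntry (b : Bool) (t : List (Option (List Bool))) (i : Fin N) : Option (List Bool) :=
  match t.getD (en (step (en.symm i) (b, false))) none with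
  | none => match t.getD (en (step (en.symm i) (b, true))) none with
    | none => none
    | some y => some (true :: y)
  | some y => some (false :: y)

/-- The table of the outputs, indexed by the states. -/
def tbl : List Bool → List (Option (List Bool))
  | [] => List.ofFn (fun i : Fin N => if F (en.symm i) then some [] else none)
  | b :: x => List.ofFn (evEntry en step b (tbl x))

theorem tbl_eq_foldr (x : List Bool) : tbl en step F x =
    x.foldr (fun b t => List.ofFn (evEntry en step b t))
      (List.ofFn (fun i : Fin N => if F (en.symm i) then some [] else none)) := by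
  induction x with
  | nil => rfl
  | cons b x ih => rw [tbl, List.foldr_cons, ih]

theorem length_tbl (x : List Bool) : (tbl en step F x).length = N := by
  cases x <;> simp [tbl]

theorem tbl_spec (x : List Bool) (i : Fin N) :
    (∀ y, (tbl en step F x).getD i none = some y →
      y.length = x.length ∧ F ((x.zip y).foldl step (en.symm i)) = true) ∧
    ((tbl en step F x).getD i none = none → ∀ y : List Bool, y.length = x.length →
      F ((x.zip y).foldl step (en.symm i)) = false) := by
  induction x generalizing i with
  | nil =>
    rw [tbl, getD_ofFn']
    constructor
    · intro y hy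
      split_ifs at hy with h
      obtain rfl : [] = y := by simpa using hy
      exact ⟨rfl, h⟩
    · intro h y hy
      obtain rfl := List.length_eq_zero_iff.mp hy
      split_ifs at h with h'
      simpa using h'
  | cons b x ih =>
    rw [tbl, getD_ofFn']
    have ih1 := ih (en (step (en.symm i) (b, false)))
    have ih2 := ih (en (step (en.symm i) (b, true)))
    rw [en.symm_apply_apply] at ih1 ih2
    unfold evEntry
    constructor
    · intro y hy
      cases h1 : (tbl en step F x).getD (en (step (en.symm i) (b, false))) none with
      | some y1 =>
        rw [h1] at hy
        obtain rfl : false :: y1 = y := by simpa using hy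
        obtain ⟨h3, h4⟩ := ih1.1 y1 h1
        exact ⟨by simp [h3], h4⟩
      | none =>
        rw [h1] at hy
        cases h2 : (tbl en step F x).getD (en (step (en.symm i) (b, true))) none with
        | some y1 =>
          simp only [h2] at hy
          obtain rfl : true :: y1 = y := by simpa using hy
          obtain ⟨h3, h4⟩ := ih2.1 y1 h2
          exact ⟨by simp [h3], h4⟩
        | none =>
          simp only [h2] at hy
          cases hy
    · intro h y hy
      cases h1 : (tbl en step F x).getD (en (step (en.symm i) (b, false))) none with
      | some y1 => rw [h1] at h; cases h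
      | none =>
        rw [h1] at h
        cases h2 : (tbl en step F x).getD (en (step (en.symm i) (b, true))) none with
        | some y1 => simp only [h2] at h; cases h
        | none =>
          cases y with
          | nil => simp at hy
          | cons a y =>
            have hy' : y.length = x.length := by simpa using hy
            rw [List.zip_cons_cons, List.foldl_cons]
            cases a with
            | false => exact ih1.2 h1 y hy'
            | true => exact ih2.2 h2 y hy'

theorem size_tbl_le (x : List Bool) : size (tbl en step F x) ≤ N * (4 * x.length + 4) + 1 := by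
  have h := size_list_le (l := tbl en step F x) (B := 4 * x.length + 3) (by
    intro o ho
    obtain ⟨i, hi, rfl⟩ := List.getElem_of_mem ho
    have hiN : i < N := by rwa [length_tbl] at hi
    have hs := (tbl_spec en step F x ⟨i, hiN⟩).1
    have hg : (tbl en step F x).getD i none = (tbl en step F x)[i] := by
      rw [List.getD_eq_getElem?_getD, List.getElem?_eq_getElem hi]; rfl
    rw [← hg]
    cases h1 : (tbl en step F x).getD i none with
    | none => rw [size_none]; omega
    | some y =>
      have h2 := (hs y h1).1
      have h3 := (size_bits y).2
      rw [size_some]
      omega)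
  rw [length_tbl] at h
  exact h

theorem PT.evEntry' {m : Bool} (i : Fin N) :
    PT m (fun z : Bool × List (Option (List Bool)) => evEntry en step z.1 z.2 i) := by
  have h : ∀ b : Bool, PT m (fun z : Bool × List (Option (List Bool)) =>
      evEntry en step b z.2 i) := by
    intro b
    have h1 := PT.optCase (m := m)
      (o := fun z : Bool × List (Option (List Bool)) =>
        z.2.getD ((en (step (en.symm i) (b, true)) : Fin N) : ℕ) none)
      (f := fun _ => (none : Option (List Bool))) (g := fun w => some (true :: w.1))
      (by fun_prop) (by fun_prop) (by fun_prop)
    refine (PT.optCase (m := m)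
      (o := fun z : Bool × List (Option (List Bool)) =>
        z.2.getD ((en (step (en.symm i) (b, false)) : Fin N) : ℕ) none)
      (g := fun w => some (false :: w.1))
      (by fun_prop) h1 (by fun_prop)).of_eq (fun z => ?_)
    unfold evEntry
    cases z.2.getD ((en (step (en.symm i) (b, false)) : Fin N) : ℕ) none with
    | none => cases z.2.getD ((en (step (en.symm i) (b, true)) : Fin N) : ℕ) none <;> rfl
    | some y => rfl
  refine ((PT.fst (m := m)).cond (h true) (h false)).of_eq (fun z => ?_)
  cases z.1 <;> rfl

theorem PT.tbl' {m : Bool} : PT m (tbl en step F) := by
  have h := PT.foldr (m := m) (α := List Bool) (l := fun x => x)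
    (ini := fun _ => List.ofFn (fun i : Fin N => if F (en.symm i) then some [] else none))
    (s := fun z : List Bool × (Bool × List (Option (List Bool))) =>
      List.ofFn (evEntry en step z.2.1 z.2.2)) (by fun_prop) (by fun_prop)
    ((PT.ofFn' (fun i => PT.evEntry' en step i)).comp (PT.snd (m := m)))
    (Polynomial.C N * (4 * Polynomial.X + 4) + 1) (by
      intro x k
      simp only
      rw [← tbl_eq_foldr]
      refine (size_tbl_le en step F _).trans ?_
      simp only [Polynomial.eval_add, Polynomial.eval_mul, Polynomial.eval_C,
        Polynomial.eval_X, Polynomial.eval_ofNat, Polynomial.eval_one]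
      have h1 : (x.drop k).length ≤ x.length := by rw [List.length_drop]; omega
      have h2 := length_le_size' x
      gcongr
      omega)
  exact h.of_eq (fun x => tbl_eq_foldr en step F x)

end eval

/-- Length-preserving functions with regular graph are computable in polynomial time. -/
theorem Aut.pt {m : Bool} {f : List Bool → List Bool} (hf : Aut f) : PT m f := by
  classical
  obtain ⟨hlen, σ, hσ, s₀, step, F, hF⟩ := hf
  obtain ⟨N, ⟨en⟩⟩ := Finite.exists_equiv_fin σ
  have h : PT m (fun x => ((tbl en step (fun q => decide (F q)) x).getD (en s₀) none).getD []) := by
    have h1 := (PT.tbl' (m := m) en step (fun q => decide (F q)))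
    have h2 : PT m (fun x => (tbl en step (fun q => decide (F q)) x).getD
        ((en s₀ : Fin N) : ℕ) none) := PT.getD' (by fun_prop) h1 (by fun_prop)
    have h3 := PT.optCase (m := m) (f := fun _ => ([] : List Bool)) (g := fun w => w.1) h2
      (by fun_prop) (by fun_prop)
    refine h3.of_eq (fun x => ?_)
    cases (tbl en step (fun q => decide (F q)) x).getD ((en s₀ : Fin N) : ℕ) none <;> rfl
  refine h.of_eq (fun x => ?_)
  have hs := tbl_spec en step (fun q => decide (F q)) x (en s₀)
  rw [en.symm_apply_apply] at hs
  cases h1 : (tbl en step (fun q => decide (F q)) x).getD ((en s₀ : Fin N) : ℕ) none with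
  | none =>
    exfalso
    have h2 := hs.2 h1 (f x) (hlen x)
    have h3 := (hF (x.zip (f x))).mp (by
      show f ((x.zip (f x)).map Prod.fst) = (x.zip (f x)).map Prod.snd
      rw [AP.fst_zip (hlen x).symm, AP.snd_zip (hlen x).symm])
    simp [h3] at h2
  | some y =>
    obtain ⟨h2, h3⟩ := hs.1 y h1
    have h4 : f ((x.zip y).map Prod.fst) = (x.zip y).map Prod.snd :=
      (hF (x.zip y)).mpr (by simpa using h3)
    rw [AP.fst_zip h2.symm, AP.snd_zip h2.symm] at h4
    rw [h4]; rfl

end Pool.Agent.PPS
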