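import Pool.Agent.PPS.Auto.Main
import Pool.Agent.H9.Universal

/-!
# One permutation with regular graph whose reversal is complete
-/

namespace Pool.Agent.PPS

/-- There is one permutation with regular graph such that its reversal in the group of
polynomial-time permutations implies the collapse. -/
theorem exists_fixed : ∃ u : Equiv.Perm (List Bool), Aut u ∧
    ∀ g ∈ GP, g * u * g⁻¹ = u⁻¹ → P = PSPACE := by
  obtain ⟨u, hu, h⟩ := exists_hard Pool.Agent.H9.pt_uacc
  refine ⟨u, hu, fun g hg hgu => ?_⟩
  apply Set.Subset.antisymm P_subset_PSPACE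
  intro L hL
  rw [mem_PSPACE_iff] at hL
  obtain ⟨r, hr, hr2⟩ := Pool.Agent.H9.uacc_complete hL
  rw [mem_P_iff]
  exact ((h g hg hgu).comp' hr).of_eq hr2

end Pool.Agent.PPS
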