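import Pool.Agent.PPS.Auto.Words
import Pool.Agent.PPS.PS

/-!
# A step of a flow chart as a function on words with regular graph
-/

namespace Pool.Agent.PPS

open Prog

section mach

variable {ι P : Type} [DecidableEq ι] (instr : P → Instr ι (Option P))

/-- Letters: the position, and one symbol for each stack. -/
abbrev ML (ι P : Type) : Type := Option P × (ι → Option Bool)

/-- The word of length `n` that represents a configuration. -/
def mEnc (n : ℕ) (x : Option P × Store ι) : List (ML ι P) :=
  (List.range n).map (fun k => (x.1, fun j => (x.2 j)[k]?))

/-- The step prescribed by the first letter `a`. -/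
def stepA (a : ML ι P) (w : List (ML ι P)) : List (ML ι P) :=
  match a.1 with
  | none => w
  | some p =>
    match instr p with
    | .nop q => w.map (fun l => (q, l.2))
    | .push i b q => (w.zip (((q, fun _ => some b) :: w).take w.length)).map
        (fun x => (q, Function.update x.1.2 i (x.2.2 i)))
    | .pop i q => (w.zip ((w ++ [(none, fun _ => none)]).tail)).map
        (fun x => (q (a.2 i), Function.update x.1.2 i (x.2.2 i)))

/-- The step. -/
def stepM (w : List (ML ι P)) : List (ML ι P) :=
  match w.head? with
  | none => w
  | some a => stepA instr a w

theorem aut_stepA [Finite ι] [Finite P] (a : ML ι P) : Aut (stepA instr a) := by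
  unfold stepA
  cases a.1 with
  | none => exact Aut.id
  | some p =>
    simp only
    cases instr p with
    | nop q => exact Aut.map _
    | push i b q => exact (Aut.map _).comp (Aut.id.zip (Aut.shiftR _))
    | pop i q => exact (Aut.map _).comp (Aut.id.zip (Aut.shiftL _))

theorem aut_stepM [Finite ι] [Finite P] : Aut (stepM instr) := by
  have h := Aut.finCase (κ := fun w : List (ML ι P) => w.head?)
    (F := fun o w => match o with
      | none => w
      | some a => stepA instr a w)
    (fun o => Reg.head (fun o' => o' = o)) (by
      intro o
      cases o with
      | none => exact Aut.id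
      | some a => exact aut_stepA instr a)
  exact h

omit [DecidableEq ι] in
theorem length_mEnc (n : ℕ) (x : Option P × Store ι) : (mEnc n x).length = n := by
  simp [mEnc]

omit [DecidableEq ι] in
theorem getElem_mEnc {n : ℕ} {x : Option P × Store ι} {k : ℕ} (h : k < (mEnc n x).length) :
    (mEnc n x)[k] = (x.1, fun j => (x.2 j)[k]?) := by
  simp [mEnc]

omit [DecidableEq ι] in
theorem head_mEnc {n : ℕ} (hn : 0 < n) (x : Option P × Store ι) :
    (mEnc n x).head? = some (x.1, fun j => (x.2 j).head?) := by
  rw [List.head?_eq_getElem?, List.getElem?_eq_getElem (by rw [length_mEnc]; exact hn),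
    getElem_mEnc]
  congr 2
  funext j
  rw [List.head?_eq_getElem?]

theorem stepM_mEnc {n : ℕ} (hn : 0 < n) (x : Option P × Store ι)
    (hx : ∀ j, (x.2 j).length ≤ n) : stepM instr (mEnc n x) = mEnc n (fstep instr x) := by
  unfold stepM
  rw [head_mEnc hn]
  obtain ⟨o, S⟩ := x
  cases o with
  | none => rfl
  | some p =>
    simp only [stepA, fstep_some]
    cases hp : instr p with
    | nop q =>
      simp only [Instr.exec, mEnc, List.map_map]
      rfl
    | push i b q =>
      simp only [Instr.exec]
      apply List.ext_getElem
      · simp [length_mEnc]
      · intro k h1 h2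
        have hk : k < n := by rw [length_mEnc] at h2; exact h2
        rw [List.getElem_map, List.getElem_zip, getElem_mEnc, getElem_mEnc, List.getElem_take]
        congr 1
        funext j
        by_cases hj : j = i
        · subst hj
          rw [Function.update_self]
          cases k with
          | zero => simp
          | succ k => simp [getElem_mEnc]
        · rw [Function.update_of_ne hj]
          simp [hj]
    | pop i q =>
      simp only [Instr.exec]
      apply List.ext_getElem
      · simp [length_mEnc]
      · intro k h1 h2
        have hk : k < n := by rw [length_mEnc] at h2; exact h2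
        rw [List.getElem_map, List.getElem_zip, getElem_mEnc, getElem_mEnc, List.getElem_tail]
        congr 1
        funext j
        by_cases hj : j = i
        · subst hj
          rw [Function.update_self]
          by_cases hk' : k + 1 < n
          · rw [List.getElem_append_left (by rw [length_mEnc]; exact hk'), getElem_mEnc]
            simp
          · rw [List.getElem_append_right (by rw [length_mEnc]; omega)]
            have : (S j).length ≤ n := hx j
            simp only [List.getElem_singleton]
            simp
            omega
        · rw [Function.update_of_ne hj]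
          simp [hj]

theorem stepM_iterate {n : ℕ} (hn : 0 < n) (x : Option P × Store ι) (t : ℕ)
    (hx : ∀ k < t, ∀ j, (((fstep instr)^[k] x).2 j).length ≤ n) :
    (stepM instr)^[t] (mEnc n x) = mEnc n ((fstep instr)^[t] x) := by
  induction t with
  | zero => rfl
  | succ t ih =>
    rw [Function.iterate_succ_apply', ih (fun k hk => hx k (by omega)),
      stepM_mEnc instr hn _ (hx t (by omega)), Function.iterate_succ_apply']

end mach

/-- A decision problem in polynomial space is solved by iteration of a function on words with
regular graph. -/
theorem exists_machine {α : Type} [Rep α] {f : α → Bool} (hf : PT false f) :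
    ∃ (L : Type) (_ : Finite L) (s : List L → List L) (acc : L → Prop)
      (st₀ : Option Bool → L) (q : Polynomial ℕ), Aut s ∧
      ∀ a n, q.eval (size a) ≤ n → ∃ r, s r = r ∧
        s ((List.range n).map (fun i => st₀ ((code a)[i]?))) ≠
          (List.range n).map (fun i => st₀ ((code a)[i]?)) ∧
        (∃ t, s^[t] ((List.range n).map (fun i => st₀ ((code a)[i]?))) = r) ∧
        ((∃ l, r.head? = some l ∧ acc l) ↔ f a = true) := by
  obtain ⟨I⟩ := hf.impl
  let instr := I.c.instr
  refine ⟨ML I.ι I.c.Pos, inferInstance, stepM instr, fun l => l.2 I.io = some true,
    fun o => (some I.c.entry, fun j => if j = I.io then o else none), I.p + 1,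
    aut_stepM instr, ?_⟩
  intro a n hn
  simp only [Polynomial.eval_add, Polynomial.eval_one] at hn
  have hn0 : 0 < n := by omega
  let x₀ : Option I.c.Pos × Store I.ι := (some I.c.entry, one I.io (code a))
  have hc₀ : (List.range n).map (fun i => ((some I.c.entry,
      fun j => if j = I.io then (code a)[i]? else none) : ML I.ι I.c.Pos)) = mEnc n x₀ := by
    unfold mEnc
    apply List.map_congr_left
    intro k _
    simp only [x₀, one]
    congr 1
    funext j
    split_ifs <;> simp
  rw [hc₀]
  obtain ⟨T, ⟨t, -, hE⟩, -⟩ := I.spec a
  have hS0 : ∀ i, (one I.io (code a) i).length ≤ I.p.eval (size a) := by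
    intro i
    simp only [one]
    split_ifs
    · exact I.le _
    · simp
  have hflow0 := flowRun_of_exec hE (embeds_self I.c) hS0
  have hflow1 : (fstep instr)^[t] x₀ = (none, one I.io (code (f a))) := hflow0.1
  have hflow2 : ∀ j ≤ t, ∀ i, (((fstep instr)^[j] x₀).2 i).length ≤ I.p.eval (size a) :=
    hflow0.2
  have hiter := stepM_iterate instr hn0 x₀ t (fun k hk i => (hflow2 k hk.le i).trans (by omega))
  rw [hflow1] at hiter
  have hroot : stepM instr (mEnc n (none, one I.io (code (f a)))) =
      mEnc n (none, one I.io (code (f a))) := by
    unfold stepM
    rw [head_mEnc hn0]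
    rfl
  refine ⟨mEnc n (none, one I.io (code (f a))), hroot, ?_, ⟨t, hiter⟩, ?_⟩
  · intro h
    have h1 : ∀ t, (stepM instr)^[t] (mEnc n x₀) = mEnc n x₀ := by
      intro t
      induction t with
      | zero => rfl
      | succ t ih => rw [Function.iterate_succ_apply', ih, h]
    rw [h1] at hiter
    have h2 := congrArg List.head? hiter
    rw [head_mEnc hn0, head_mEnc hn0] at h2
    simp [x₀] at h2
  · rw [head_mEnc hn0]
    simp only [Option.some.injEq, exists_eq_left', one, if_true]
    cases f a
    · simp [code, Rep.rep, D.code]
    · simp [code, Rep.rep, D.code]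

end Pool.Agent.PPS
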