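import Pool.Agent.PPS.Auto.Sched
import Pool.Agent.PPS.Auto.Mach
import Pool.Agent.PPS.Auto.Block
import Pool.Agent.PPS.Codes

/-!
# A permutation of words with regular graph whose reversal is hard
-/

namespace Pool.Agent.PPS

/-! ### Tables and concatenation in polynomial time -/

theorem PT.ofTake {m : Bool} {β : Type} [Rep β] (k : ℕ) (h : List Bool → β) :
    PT m (fun x : List Bool => h (x.take k)) := by
  induction k generalizing h with
  | zero => exact (PT.const' (h [])).of_eq (fun x => by simp)
  | succ k ih =>
    have h1 : PT m (fun z : (Bool × List Bool) × List Bool =>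
        bif z.1.1 then h (true :: z.1.2.take k) else h (false :: z.1.2.take k)) :=
      PT.cond (by fun_prop)
        ((ih (fun y => h (true :: y))).comp' (f := fun z : (Bool × List Bool) × List Bool =>
          z.1.2) (by fun_prop))
        ((ih (fun y => h (false :: y))).comp' (f := fun z : (Bool × List Bool) × List Bool =>
          z.1.2) (by fun_prop))
    have h2 := PT.listCase (m := m) (l := fun x : List Bool => x) (f := fun _ => h [])
      (by fun_prop) (by fun_prop) h1
    refine h2.of_eq (fun x => ?_)
    cases x with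
    | nil => rfl
    | cons b x => cases b <;> rfl

theorem PT.ofOptBool {m : Bool} {α β : Type} [Rep α] [Rep β] (T : Option Bool → β)
    {o : α → Option Bool} (ho : PT m o) : PT m (fun a => T (o a)) := by
  have h1 := PT.optCase (m := m) (f := fun _ : α => T none)
    (g := fun z : Bool × α => bif z.1 then T (some true) else T (some false)) ho
    (by fun_prop) (by fun_prop)
  refine h1.of_eq (fun a => ?_)
  cases o a with
  | none => rfl
  | some b => cases b <;> rfl

theorem size_flatten_le {β : Type} [Rep β] (l : List (List β)) : size l.flatten ≤ size l := by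
  induction l with
  | nil => exact le_rfl
  | cons b l ih =>
    have := size_append b l.flatten
    rw [List.flatten_cons, size_cons]
    omega

theorem PT.flatten' {m : Bool} {α β : Type} [Rep α] [Rep β] {l : α → List (List β)}
    (hl : PT m l) : PT m (fun a => (l a).flatten) := by
  obtain ⟨p, hp⟩ := hl.exists_size_le
  have key : ∀ l : List (List β), l.foldr (fun b y => b ++ y) [] = l.flatten := by
    intro l
    induction l with
    | nil => rfl
    | cons b l ih => rw [List.foldr_cons, ih, List.flatten_cons]
  have h := PT.foldr (m := m) (l := l) (ini := fun _ => ([] : List β))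
    (s := fun z : α × (List β × List β) => z.2.1 ++ z.2.2) hl (by fun_prop) (by fun_prop) p (by
      intro a k
      simp only
      rw [key]
      exact (size_flatten_le _).trans ((size_drop_le _ _).trans (hp a)))
  exact h.of_eq (fun a => (key _).symm)

theorem PT.flatMapOpt {m : Bool} {α β : Type} [Rep α] [Rep β] (T : Option Bool → List β)
    {l : α → List (Option Bool)} (hl : PT m l) : PT m (fun a => (l a).flatMap T) := by
  have h1 : PT m (fun a => (l a).map T) :=
    PT.map' (f := fun z : α × Option Bool => T z.2) hl (PT.ofOptBool T (by fun_prop))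
  exact h1.flatten'.of_eq (fun a => by rw [List.flatMap_def])

/-! ### Conjugation to the inverse -/

section conj

variable {g F : Equiv.Perm (List Bool)} (h : g * F * g⁻¹ = F⁻¹)

include h in
theorem conj_step (y : List Bool) : F (g (F y)) = g y := by
  have h1 : F * (g * F) = g := by
    have : g * F = F⁻¹ * g := by rw [← h]; group
    rw [this]; group
  exact congrArg (fun k : Equiv.Perm (List Bool) => k y) h1

include h in
theorem conj_iterate (j : ℕ) (y : List Bool) : F^[j] (g (F^[j] y)) = g y := by
  induction j with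
  | zero => rfl
  | succ j ih =>
    rw [Function.iterate_succ_apply, Function.iterate_succ_apply', conj_step h, ih]

include h in
theorem conj_back {j : ℕ} {y v : List Bool} (hv : F^[j] v = g y) : g.symm v = F^[j] y := by
  have h1 := conj_iterate h j y
  have h2 : v = g (F^[j] y) := (F.injective.iterate j) (hv.trans h1.symm)
  rw [h2, g.symm_apply_apply]

end conj

/-! ### The clock -/

section clock

variable {L : Type} [Finite L] {N : ℕ} (e : L ≃ Fin N) {s : List L → List L} (hs : Aut s)
  (acc : L → Prop) (M : ℕ) [NeZero M]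

theorem clockP_fst {n : ℕ} (w : List (Fin M × DL L M)) (hw : w.length = n + 1) :
    ((clockP e hs acc M).f w).map Prod.fst = dig M (n + 1) (num (w.map Prod.fst) + 1) := by
  obtain ⟨κ, δ, hl, rfl⟩ := AP.exists_zip' w
  rw [List.length_zip, ← hl, min_self] at hw
  have h1 : κ = dig M (n + 1) (num κ) := by rw [← hw, dig_num]
  rw [AP.fst_zip hl]
  conv_lhs => rw [h1]
  rw [clockP_dig e hs acc M _ _ _ (by rw [← hl, hw]), AP.fst_zip]
  rw [length_actD, length_dig, ← hl, hw]

theorem clockP_iterate_fst {n : ℕ} (j : ℕ) (w : List (Fin M × DL L M))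
    (hw : w.length = n + 1) : ((clockP e hs acc M).f^[j] w).map Prod.fst =
      dig M (n + 1) (num (w.map Prod.fst) + j) := by
  induction j with
  | zero =>
    have h1 := dig_num (w.map Prod.fst)
    rw [List.length_map, hw] at h1
    exact h1.symm
  | succ j ih =>
    rw [Function.iterate_succ_apply', clockP_fst e hs acc M _
      (by rw [length_iter (clockP e hs acc M).length_f, hw]), ih, num_dig]
    apply dig_congr
    rw [Nat.mod_add_mod]
    rfl

/-- The phase after a shift of the clock. -/
theorem clockP_phase_shift {n : ℕ} (j : ℕ) {x x' : Fin M × DL L M}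
    {w w' : List (Fin M × DL L M)} (hw : w.length = n)
    (h : (clockP e hs acc M).f^[j * M ^ n] (x :: w) = x' :: w') :
    (x'.1 : ℕ) = ((x.1 : ℕ) + j) % M := by
  have h1 := clockP_iterate_fst e hs acc M (n := n) (j * M ^ n) (x :: w) (by simp [hw])
  rw [h] at h1
  simp only [List.map_cons, dig, List.cons.injEq] at h1
  rw [h1.1]
  simp only [num, List.length_map, hw]
  have h2 := num_lt (w.map Prod.fst)
  rw [List.length_map, hw] at h2
  have h3 : ((x.1 : ℕ) * M ^ n + num (w.map Prod.fst) + j * M ^ n) / M ^ n = (x.1 : ℕ) + j := by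
    rw [show (x.1 : ℕ) * M ^ n + num (w.map Prod.fst) + j * M ^ n =
      M ^ n * ((x.1 : ℕ) + j) + num (w.map Prod.fst) by ring,
      Nat.mul_add_div (by omega), Nat.div_eq_of_lt h2, Nat.add_zero]
  rw [h3]
  simp

theorem clockP_ne {n : ℕ} (hM : 2 ≤ M) (w : List (Fin M × DL L M)) (hw : w.length = n + 1) :
    (clockP e hs acc M).f w ≠ w := by
  intro h
  have h1 := clockP_fst e hs acc M w hw
  rw [h] at h1
  have h2 := congrArg num h1
  rw [num_dig] at h2
  have h3 := num_lt (w.map Prod.fst)
  rw [List.length_map, hw] at h3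
  have h4 : 2 ≤ M ^ (n + 1) := by
    calc 2 ≤ M := hM
      _ = M ^ 1 := (pow_one M).symm
      _ ≤ M ^ (n + 1) := Nat.pow_le_pow_right (by omega) (by omega)
  rcases Nat.lt_or_ge (num (w.map Prod.fst) + 1) (M ^ (n + 1)) with h5 | h5
  · rw [Nat.mod_eq_of_lt h5] at h2; omega
  · have h6 : num (w.map Prod.fst) + 1 = M ^ (n + 1) := by omega
    rw [h6, Nat.mod_self] at h2
    omega

end clock

/-! ### The reduction -/

section reduction

variable {L : Type} [Finite L] {N : ℕ} (e : L ≃ Fin N) {s : List L → List L} (hs : Aut s)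
  (acc : L → Prop) (M : ℕ) [NeZero M] (hM : 128 ≤ M)
  {k : ℕ} (c : Fin M × DL L M → List Bool) (hk : ∀ a, (c a).length = k) (hk0 : 0 < k)
  (hc : Function.Injective c)

/-- The permutation of the words of bits. -/
noncomputable def hardP : Equiv.Perm (List Bool) := blockP c hk hk0 hc (clockP e hs acc M).f

open Classical in
/-- The table: calm phases. -/
noncomputable def calmB (p : List Bool) : Bool := decide (∃ x, c x = p ∧ calmQ M (x.1 : ℕ))

open Classical in
/-- The table: two phases earlier. -/
noncomputable def shiftT (p : List Bool) : List Bool :=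
  if h : ∃ x, c x = p then c (earlier M h.choose) else []

open Classical in
/-- The table: the output bit. -/
noncomputable def outT (p : List Bool) : Bool := decide (∃ x, c x = p ∧ x.2.2 = true)

omit [Finite L] [NeZero M] in
include hc in
theorem calmB_code (x : Fin M × DL L M) : calmB M c (c x) = true ↔ calmQ M (x.1 : ℕ) := by
  classical
  unfold calmB
  rw [decide_eq_true_iff]
  constructor
  · rintro ⟨y, hy, h⟩
    rwa [hc hy] at h
  · intro h; exact ⟨x, rfl, h⟩

omit [Finite L] in
include hc in
theorem shiftT_code (x : Fin M × DL L M) : shiftT M c (c x) = c (earlier M x) := by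
  unfold shiftT
  have h : ∃ y, c y = c x := ⟨x, rfl⟩
  rw [dif_pos h, hc h.choose_spec]

omit [Finite L] [NeZero M] in
include hc in
theorem outT_code (x : Fin M × DL L M) : outT M c (c x) = x.2.2 := by
  classical
  unfold outT
  rw [Bool.eq_iff_iff, decide_eq_true_iff]
  constructor
  · rintro ⟨y, hy, h⟩
    rwa [hc hy] at h
  · intro h; exact ⟨x, rfl, h⟩

/-- Is the image of the starting word calm? -/
noncomputable def askB (g : Equiv.Perm (List Bool)) (k : ℕ) (y : List Bool) : Bool :=
  calmB M c ((g y).take k)

/-- The answer. -/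
noncomputable def ansB (g : Equiv.Perm (List Bool)) (k : ℕ) (y : List Bool) : Bool :=
  outT M c ((g.symm (shiftT M c ((g y).take k) ++ (g y).drop k)).take k)

variable {g : Equiv.Perm (List Bool)} (hglen : ∀ x, (g x).length = x.length)
  (hg : g * hardP e hs acc M c hk hk0 hc * g⁻¹ = (hardP e hs acc M c hk hk0 hc)⁻¹)
  {n : ℕ} {c₀ : List L} (hc₀ : c₀.length = n + 1)

include hM hglen hg hc₀ in
/-- The images of the starting words are code words. -/
theorem exists_image {a : ℕ} : ∃ (x : Fin M × DL L M) (w : List (Fin M × DL L M)),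
    w.length = n ∧ g ((WW M n c₀ a false).flatMap c) = (x :: w).flatMap c := by
  by_cases h : ∃ w : List (Fin M × DL L M), w.flatMap c = g ((WW M n c₀ a false).flatMap c)
  · obtain ⟨w, hw⟩ := h
    have h1 := congrArg List.length hw
    rw [hglen, length_flatMap c hk, length_flatMap c hk, length_WW M n c₀ hc₀] at h1
    have h2 := Nat.eq_of_mul_eq_mul_left hk0 h1
    cases w with
    | nil => simp at h2
    | cons x w => exact ⟨x, w, by simpa using h2, hw.symm⟩
  · exfalso
    have h1 : hardP e hs acc M c hk hk0 hc (g ((WW M n c₀ a false).flatMap c)) =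
        g ((WW M n c₀ a false).flatMap c) := blockP_other c hk hk0 hc _ h
    have h2 := conj_step hg ((hardP e hs acc M c hk hk0 hc).symm
      ((WW M n c₀ a false).flatMap c))
    rw [Equiv.apply_symm_apply, h1] at h2
    have h3 := g.injective h2
    have h4 : hardP e hs acc M c hk hk0 hc ((WW M n c₀ a false).flatMap c) =
        (WW M n c₀ a false).flatMap c := by
      conv_lhs => rw [h3]
      exact Equiv.apply_symm_apply _ _
    unfold hardP at h4
    rw [blockP_code] at h4
    exact clockP_ne e hs acc M (by omega) _ (length_WW M n c₀ hc₀ a false)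
      (flatMap_injective c hk hk0 hc h4)

include hM hg hc₀ in
/-- The answer is correct in a calm phase. -/
theorem ans_eq {a : ℕ} (ha : a = 0 ∨ a = 16 ∨ a = 44) {x : Fin M × DL L M}
    {w : List (Fin M × DL L M)} (hw : w.length = n)
    (hx : g ((WW M n c₀ a false).flatMap c) = (x :: w).flatMap c)
    (hcalm : calmQ M (x.1 : ℕ)) :
    ansB M c g k ((WW M n c₀ a false).flatMap c) = flp e hs acc M c₀ n (M ^ n) := by
  have hk' : k = (c x).length := (hk x).symm
  unfold ansB
  have e1 : ((x :: w).flatMap c).take k = c x := by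
    rw [List.flatMap_cons, hk', List.take_left]
  have e2 : ((x :: w).flatMap c).drop k = w.flatMap c := by
    rw [List.flatMap_cons, hk', List.drop_left]
  rw [hx, e1, e2, shiftT_code M c hc]
  have e3 : c (earlier M x) ++ w.flatMap c = (earlier M x :: w).flatMap c := by
    rw [List.flatMap_cons]
  rw [e3]
  have e4 : (hardP e hs acc M c hk hk0 hc)^[2 * M ^ n] ((earlier M x :: w).flatMap c) =
      g ((WW M n c₀ a false).flatMap c) := by
    unfold hardP
    rw [blockP_iterate, clockP_calm e hs acc M n hM w x hw hcalm, hx]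
  rw [conj_back hg e4]
  unfold hardP
  rw [blockP_iterate, WW_out e hs acc M n c₀ hc₀ hM ha]
  have e5 : ∃ (x' : Fin M × DL L M) (w' : List (Fin M × DL L M)),
      WW M n c₀ (a + 2) (flp e hs acc M c₀ n (M ^ n)) = x' :: w' ∧
        x'.2.2 = flp e hs acc M c₀ n (M ^ n) := by
    cases hc0 : c₀ with
    | nil => rw [hc0] at hc₀; simp at hc₀
    | cons l c₁ =>
      unfold WW WD h₀ dig
      rw [List.zip_cons_cons, List.zip_cons_cons, List.zip_cons_cons, List.zip_cons_cons]
      exact ⟨_, _, rfl, rfl⟩
  obtain ⟨x', w', h1, h2⟩ := e5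
  rw [h1, List.flatMap_cons, ← hk x', List.take_left, outT_code M c hc, h2]

include hM hglen hg hc₀ in
theorem ask_ans {a : ℕ} (ha : a = 0 ∨ a = 16 ∨ a = 44)
    (h : askB M c g k ((WW M n c₀ a false).flatMap c) = true) :
    ansB M c g k ((WW M n c₀ a false).flatMap c) = flp e hs acc M c₀ n (M ^ n) := by
  obtain ⟨x, w, hw, hx⟩ := exists_image e hs acc M hM c hk hk0 hc hglen hg hc₀ (a := a)
  apply ans_eq e hs acc M hM c hk hk0 hc hg hc₀ ha hw hx
  unfold askB at h
  rw [hx, List.flatMap_cons, ← hk x, List.take_left, calmB_code M c hc] at h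
  exact h

include e hs acc hM hk0 hc hglen hg hc₀ in
theorem ask_exists : askB M c g k ((WW M n c₀ 0 false).flatMap c) = true ∨
    askB M c g k ((WW M n c₀ 16 false).flatMap c) = true ∨
    askB M c g k ((WW M n c₀ 44 false).flatMap c) = true := by
  obtain ⟨x, w, hw, hx⟩ := exists_image e hs acc M hM c hk hk0 hc hglen hg hc₀ (a := 0)
  obtain ⟨x₁, w₁, hw₁, hx₁⟩ := exists_image e hs acc M hM c hk hk0 hc hglen hg hc₀ (a := 16)
  obtain ⟨x₂, w₂, hw₂, hx₂⟩ := exists_image e hs acc M hM c hk hk0 hc hglen hg hc₀ (a := 44)
  have key : ∀ (a : ℕ) (_ : a = 0 ∨ a = 16 ∨ a = 44) (x' : Fin M × DL L M)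
      (w' : List (Fin M × DL L M)), w'.length = n →
      g ((WW M n c₀ a false).flatMap c) = (x' :: w').flatMap c →
      (x.1 : ℕ) = ((x'.1 : ℕ) + a) % M := by
    intro a ha x' w' hw' hx'
    apply clockP_phase_shift e hs acc M a (x := x') (x' := x) (w := w') (w' := w) hw'
    apply flatMap_injective c hk hk0 hc
    show ((clockP e hs acc M).f^[a * M ^ n] (x' :: w')).flatMap c = (x :: w).flatMap c
    have h1 := conj_iterate hg (a * M ^ n) ((WW M n c₀ 0 false).flatMap c)
    rw [hx] at h1
    rw [← h1]
    unfold hardP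
    rw [blockP_iterate c hk hk0 hc _ _ (WW M n c₀ 0 false), WW_start e hs acc M n c₀ hc₀ hM ha,
      hx', blockP_iterate]
  have k1 := key 16 (by omega) x₁ w₁ hw₁ hx₁
  have k2 := key 44 (by omega) x₂ w₂ hw₂ hx₂
  unfold askB
  rw [hx, hx₁, hx₂, List.flatMap_cons, List.flatMap_cons, List.flatMap_cons]
  have t1 : (c x ++ w.flatMap c).take k = c x := by rw [← hk x, List.take_left]
  have t2 : (c x₁ ++ w₁.flatMap c).take k = c x₁ := by rw [← hk x₁, List.take_left]
  have t3 : (c x₂ ++ w₂.flatMap c).take k = c x₂ := by rw [← hk x₂, List.take_left]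
  rw [t1, t2, t3, calmB_code M c hc, calmB_code M c hc, calmB_code M c hc]
  exact exists_calm M hM x.1.2 x₁.1.2 x₂.1.2 k1 k2

/-- The algorithm. -/
noncomputable def algB (g : Equiv.Perm (List Bool)) (k : ℕ) (y y₁ y₂ : List Bool) : Bool :=
  bif askB M c g k y then ansB M c g k y else
    bif askB M c g k y₁ then ansB M c g k y₁ else ansB M c g k y₂

include hM hk0 hc hglen hg hc₀ in
theorem algB_eq : algB M c g k ((WW M n c₀ 0 false).flatMap c)
    ((WW M n c₀ 16 false).flatMap c) ((WW M n c₀ 44 false).flatMap c) =
      flp e hs acc M c₀ n (M ^ n) := by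
  have h0 := ask_ans e hs acc M hM c hk hk0 hc hglen hg hc₀ (a := 0) (by omega)
  have h1 := ask_ans e hs acc M hM c hk hk0 hc hglen hg hc₀ (a := 16) (by omega)
  have h2 := ask_ans e hs acc M hM c hk hk0 hc hglen hg hc₀ (a := 44) (by omega)
  have h3 := ask_exists e hs acc M hM c hk hk0 hc hglen hg hc₀
  unfold algB
  cases b0 : askB M c g k ((WW M n c₀ 0 false).flatMap c) with
  | true => exact h0 b0
  | false =>
    cases b1 : askB M c g k ((WW M n c₀ 16 false).flatMap c) with
    | true => exact h1 b1
    | false =>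
      rw [b0, b1] at h3
      simp only [Bool.false_eq_true, false_or] at h3
      exact h2 h3

end reduction

end Pool.Agent.PPS
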