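import Pool.Agent.PPS.Auto.Hard
import Pool.Agent.PPS.Auto.Eval
import Pool.Agent.PPS.Groups

/-!
# Permutations with regular graph and the group of polynomial-time permutations
-/

namespace Pool.Agent.PPS

/-- The digits of a multiple. -/
theorem dig_mul (M : ℕ) [NeZero M] (n p : ℕ) : dig M n (p * M ^ n) = List.replicate n (Fin.ofNat M 0) := by
  have h1 : ∀ n, num (List.replicate n (Fin.ofNat M 0)) = 0 := by
    intro n
    induction n with
    | zero => rfl
    | succ n ih =>
      rw [List.replicate_succ, num, ih]
      simp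
  apply num_inj (by simp)
  rw [num_dig, h1]
  simp

section start

variable {L : Type} (M : ℕ) [NeZero M] (st₀ : Option Bool → L)

/-- The first letter of a starting word. -/
def T0 (p : ℕ) (o : Option Bool) : Fin M × DL L M :=
  (Fin.ofNat M p, (((st₀ o, true), Fin.ofNat M 0), false))

/-- The other letters. -/
def T1 (o : Option Bool) : Fin M × DL L M :=
  (Fin.ofNat M 0, (((st₀ o, false), Fin.ofNat M 0), false))

/-- The initial configuration. -/
def c0 (u : List Bool) (n : ℕ) : List L := (List.range (n + 1)).map (fun i => st₀ (u[i]?))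

/-- The symbols after the first one. -/
def opts (u : List Bool) (n : ℕ) : List (Option Bool) :=
  (u.tail.map some ++ List.replicate n none).take n

theorem opts_eq (u : List Bool) (n : ℕ) :
    opts u n = (List.range n).map (fun i => u[i + 1]?) := by
  apply List.ext_getElem
  · simp [opts]
  · intro i h1 h2
    have hi : i < n := by simpa using h2
    rw [List.getElem_map, List.getElem_range]
    unfold opts
    rw [List.getElem_take, List.getElem_append]
    split_ifs with h
    · rw [List.length_map, List.length_tail] at h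
      rw [List.getElem_map, List.getElem_tail, List.getElem?_eq_getElem (by omega)]
    · rw [List.length_map, List.length_tail] at h
      rw [List.getElem_replicate, List.getElem?_eq_none (by omega)]

theorem c0_eq (u : List Bool) (n : ℕ) :
    c0 st₀ u n = st₀ u.head? :: (opts u n).map st₀ := by
  unfold c0
  rw [List.range_succ_eq_map, List.map_cons, List.map_map, opts_eq, List.map_map,
    List.head?_eq_getElem?]
  rfl

theorem length_c0 (u : List Bool) (n : ℕ) : (c0 st₀ u n).length = n + 1 := by simp [c0]

theorem length_opts (u : List Bool) (n : ℕ) : (opts u n).length = n := by simp [opts]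

theorem zip_aux (l : List (Option Bool)) (n : ℕ) (hn : l.length = n) :
    (List.replicate n (Fin.ofNat M 0)).zip ((((l.map st₀).zip (List.replicate n false)).zip
      (List.replicate n (Fin.ofNat M 0))).zip (List.replicate n false)) = l.map (T1 M st₀) := by
  subst hn
  induction l with
  | nil => rfl
  | cons o l ih =>
    rw [List.length_cons, List.replicate_succ, List.replicate_succ, List.map_cons,
      List.zip_cons_cons, List.zip_cons_cons, List.zip_cons_cons, List.zip_cons_cons, ih]
    rfl

theorem WW_eq (u : List Bool) (n p : ℕ) :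
    WW M n (c0 st₀ u n) p false = T0 M st₀ p u.head? :: (opts u n).map (T1 M st₀) := by
  have h1 : dig M (n + 1) (p * M ^ n) = Fin.ofNat M p :: List.replicate n (Fin.ofNat M 0) := by
    have hpos : 0 < M ^ n := by have := NeZero.pos M; positivity
    rw [dig, dig_mul, Nat.mul_div_cancel _ hpos]
  have h2 : dig M (n + 1) 0 = Fin.ofNat M 0 :: List.replicate n (Fin.ofNat M 0) := by
    have := dig_mul M (n + 1) 0
    rw [Nat.zero_mul, List.replicate_succ] at this
    exact this
  unfold WW WD h₀
  rw [h1, h2, c0_eq, List.zip_cons_cons, List.zip_cons_cons, List.zip_cons_cons,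
    List.zip_cons_cons, zip_aux M st₀ _ n (length_opts u n)]
  rfl

theorem PT.start {m : Bool} {α : Type} [Rep α] {u : α → List Bool} {n : α → ℕ} (hu : PT m u)
    (hn : PT m n) (c : Fin M × DL L M → List Bool) (p : ℕ) :
    PT m (fun a => (WW M (n a) (c0 st₀ (u a) (n a)) p false).flatMap c) := by
  have h1 : PT m (fun a => opts (u a) (n a)) := by
    have h2 : PT m (fun a => (u a).tail.map some) :=
      PT.map' (f := fun z : α × Bool => some z.2) (by fun_prop) (by fun_prop)
    have h3 : PT m (fun a => List.replicate (n a) (none : Option Bool)) := by fun_prop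
    have h4 : PT m (fun a => ((u a).tail.map some ++ List.replicate (n a) none)) :=
      h2.append' h3
    exact PT.take' hn h4
  have h2 : PT m (fun a => c (T0 M st₀ p (u a).head?)) :=
    PT.ofOptBool (fun o => c (T0 M st₀ p o)) (by fun_prop)
  have h3 := PT.flatMapOpt (fun o => c (T1 M st₀ o)) h1
  refine (h2.append' h3).of_eq (fun a => ?_)
  rw [WW_eq, List.flatMap_cons, List.flatMap_map]

end start

/-- Every decision problem in polynomial space reduces to the reversal of a permutation with
regular graph. -/
theorem exists_hard {α : Type} [Rep α] {f : α → Bool} (hf : PT false f) :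
    ∃ F : Equiv.Perm (List Bool), Aut F ∧
      ∀ g ∈ GP, g * F * g⁻¹ = F⁻¹ → PT true f := by
  classical
  obtain ⟨L, hL, s, acc, st₀, q, hs, hmach⟩ := exists_machine hf
  obtain ⟨N, ⟨e⟩⟩ := Finite.exists_equiv_fin L
  have := Fintype.ofFinite L
  obtain ⟨M, hM, hM2⟩ : ∃ M, 128 ≤ M ∧ Fintype.card (HL L) * Fintype.card (HL L) ≤ M :=
    ⟨128 + Fintype.card (HL L) * Fintype.card (HL L), by omega, by omega⟩
  have hne : NeZero M := ⟨by omega⟩
  obtain ⟨k, c, hk0, hk, hc⟩ := exists_code (Fin M × DL L M)
  refine ⟨hardP e hs acc M c hk hk0 hc, aut_blockP c hk hk0 hc (clockP e hs acc M).aut, ?_⟩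
  intro g hg hconj
  rw [mem_GP_iff] at hg
  obtain ⟨hglen, hg1, hg2⟩ := hg
  -- the algorithm
  let n : α → ℕ := fun a => q.eval (size a) + 1
  have hn : PT true n := by
    have h1 : PT true (fun a : α => size a) := PT.size' PT.id'
    have h2 := PT.polyEval h1 q
    exact h2.succ'
  have hu : PT true (fun a : α => code a) := PT.code' PT.id'
  have hy : ∀ p, PT true (fun a => (WW M (n a) (c0 st₀ (code a) (n a)) p false).flatMap c) :=
    fun p => PT.start M st₀ hu hn c p
  have hask : PT true (askB M c g k) :=
    (PT.ofTake k (calmB M c)).comp' hg1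
  have hans : PT true (ansB M c g k) := by
    have h1 : PT true (fun y => shiftT M c ((g y).take k) ++ (g y).drop k) :=
      ((PT.ofTake k (shiftT M c)).comp' hg1).append' (PT.drop' (by fun_prop) hg1)
    exact (PT.ofTake k (outT M c)).comp' (hg2.comp' h1)
  have halg : PT true (fun a => algB M c g k
      ((WW M (n a) (c0 st₀ (code a) (n a)) 0 false).flatMap c)
      ((WW M (n a) (c0 st₀ (code a) (n a)) 16 false).flatMap c)
      ((WW M (n a) (c0 st₀ (code a) (n a)) 44 false).flatMap c)) :=
    (hask.comp' (hy 0)).cond (hans.comp' (hy 0))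
      ((hask.comp' (hy 16)).cond (hans.comp' (hy 16)) (hans.comp' (hy 44)))
  refine halg.of_eq (fun a => ?_)
  have hlen : (c0 st₀ (code a) (n a)).length = n a + 1 := length_c0 st₀ _ _
  rw [algB_eq e hs acc M hM c hk hk0 hc hglen hconj hlen]
  obtain ⟨r, hr, hr1, hr2, hr3⟩ := hmach a (n a + 1) (by simp only [n]; omega)
  have hcard : Fintype.card (HL L) ^ (n a + 1) ≤ M ^ (n a) := by
    have hpos : 0 < Fintype.card (HL L) := Fintype.card_pos_iff.mpr ⟨(st₀ none, true)⟩
    calc Fintype.card (HL L) ^ (n a + 1) ≤ Fintype.card (HL L) ^ (2 * n a) :=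
          Nat.pow_le_pow_right hpos (by simp only [n]; omega)
      _ = (Fintype.card (HL L) * Fintype.card (HL L)) ^ (n a) := by rw [pow_mul, pow_two]
      _ ≤ M ^ (n a) := Nat.pow_le_pow_left hM2 _
  have h1 := flp_eq e hs acc M (n := n a) (c₀ := c0 st₀ (code a) (n a)) (r := r) hlen hr hr1
    hr2 hcard
  rw [Bool.eq_iff_iff, h1]
  exact hr3.symm

/-- Length-preserving permutations with regular graph belong to the group. -/
theorem mem_GP_of_aut {F : Equiv.Perm (List Bool)} (hF : Aut F) : F ∈ GP :=
  mem_GP_iff.mpr ⟨hF.1, hF.pt, hF.symm.pt⟩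

/-- A permutation has regular graph if and only if its graph is a regular language. -/
theorem aut_iff {F : List Bool → List Bool} : Aut F ↔ (∀ x, (F x).length = x.length) ∧
    Language.IsRegular ({w | F (w.map Prod.fst) = w.map Prod.snd} : Language (Bool × Bool)) := by
  unfold Aut
  rw [reg_iff_isRegular]

end Pool.Agent.PPS
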