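import Mathlib

/-!
# Regular predicates on words and length-preserving functions with regular graph
-/

namespace Pool.Agent.PPS

variable {α β γ δ : Type}

/-- Regular predicates on words. -/
def Reg (R : List α → Prop) : Prop :=
  ∃ (σ : Type) (_ : Finite σ) (s₀ : σ) (step : σ → α → σ) (F : σ → Prop),
    ∀ w, R w ↔ F (w.foldl step s₀)

namespace Reg

theorem congr {R R' : List α → Prop} (h : Reg R) (h' : ∀ w, R' w ↔ R w) : Reg R' := by
  obtain ⟨σ, hσ, s₀, step, F, hF⟩ := h
  exact ⟨σ, hσ, s₀, step, F, fun w => (h' w).trans (hF w)⟩

theorem const (p : Prop) : Reg (fun _ : List α => p) :=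
  ⟨Unit, inferInstance, (), fun _ _ => (), fun _ => p, fun _ => Iff.rfl⟩

theorem not {R : List α → Prop} (h : Reg R) : Reg (fun w => ¬ R w) := by
  obtain ⟨σ, hσ, s₀, step, F, hF⟩ := h
  exact ⟨σ, hσ, s₀, step, fun q => ¬ F q, fun w => not_congr (hF w)⟩

/-- The product automaton over a finite family. -/
theorem family {ι : Type} [Finite ι] {R : ι → List α → Prop} (h : ∀ i, Reg (R i))
    (G : (ι → Prop) → Prop) : Reg (fun w => G (fun i => R i w)) := by
  choose σ hσ s₀ step F hF using h
  refine ⟨∀ i, σ i, inferInstance, s₀, fun q a i => step i (q i) a,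
    fun q => G (fun i => F i (q i)), fun w => ?_⟩
  have key : ∀ (w : List α) (q : ∀ i, σ i) (i : ι),
      (w.foldl (fun q a i => step i (q i) a) q) i = w.foldl (step i) (q i) := by
    intro w
    induction w with
    | nil => intro q i; rfl
    | cons a w ih => intro q i; rw [List.foldl_cons, ih]; rfl
  have : (fun i => R i w) = fun i => F i ((w.foldl (fun q a i => step i (q i) a) s₀) i) := by
    funext i
    rw [key, eq_iff_iff]
    exact hF i w
  beta_reduce
  rw [this]

theorem bin {R R' : List α → Prop} (h : Reg R) (h' : Reg R') (G : Prop → Prop → Prop) :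
    Reg (fun w => G (R w) (R' w)) := by
  have := family (ι := Bool) (R := fun b => bif b then R else R') (by
    intro b; cases b
    · exact h'
    · exact h) (fun u => G (u true) (u false))
  exact this

theorem and {R R' : List α → Prop} (h : Reg R) (h' : Reg R') : Reg (fun w => R w ∧ R' w) :=
  bin h h' And

theorem or {R R' : List α → Prop} (h : Reg R) (h' : Reg R') : Reg (fun w => R w ∨ R' w) :=
  bin h h' Or

theorem imp {R R' : List α → Prop} (h : Reg R) (h' : Reg R') : Reg (fun w => R w → R' w) :=
  bin h h' (fun a b => a → b)

theorem iff {R R' : List α → Prop} (h : Reg R) (h' : Reg R') : Reg (fun w => R w ↔ R' w) :=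
  bin h h' Iff

theorem exFin {ι : Type} [Finite ι] {R : ι → List α → Prop} (h : ∀ i, Reg (R i)) :
    Reg (fun w => ∃ i, R i w) := family h (fun u => ∃ i, u i)

theorem allFin {ι : Type} [Finite ι] {R : ι → List α → Prop} (h : ∀ i, Reg (R i)) :
    Reg (fun w => ∀ i, R i w) := family h (fun u => ∀ i, u i)

theorem comap {R : List α → Prop} (h : Reg R) (φ : β → α) : Reg (fun w => R (w.map φ)) := by
  obtain ⟨σ, hσ, s₀, step, F, hF⟩ := h
  refine ⟨σ, hσ, s₀, fun q b => step q (φ b), F, fun w => ?_⟩
  beta_reduce
  rw [hF, List.foldl_map]

/-- Existential quantification over words of the same length. -/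
theorem ex {R : List α → List β → Prop}
    (h : Reg (fun w : List (α × β) => R (w.map Prod.fst) (w.map Prod.snd))) :
    Reg (fun w => ∃ y : List β, y.length = w.length ∧ R w y) := by
  obtain ⟨σ, hσ, s₀, step, F, hF⟩ := h
  refine ⟨Set σ, inferInstance, {s₀}, fun Q a => {q' | ∃ q ∈ Q, ∃ b, q' = step q (a, b)},
    fun Q => ∃ q ∈ Q, F q, fun w => ?_⟩
  have key : ∀ (w : List α) (Q : Set σ) (q' : σ),
      q' ∈ w.foldl (fun Q a => {q' | ∃ q ∈ Q, ∃ b, q' = step q (a, b)}) Q ↔
        ∃ y : List β, y.length = w.length ∧ ∃ q ∈ Q, q' = (w.zip y).foldl step q := by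
    intro w
    induction w with
    | nil =>
      intro Q q'
      simp only [List.foldl_nil, List.length_nil, List.length_eq_zero_iff]
      constructor
      · intro h; exact ⟨[], rfl, q', h, rfl⟩
      · rintro ⟨y, rfl, q, hq, h⟩
        simp only [List.zip_nil_right, List.foldl_nil] at h
        rw [h]; exact hq
    | cons a w ih =>
      intro Q q'
      rw [List.foldl_cons, ih]
      constructor
      · rintro ⟨y, hy, q, ⟨q₀, hq₀, b, rfl⟩, h⟩
        exact ⟨b :: y, by simp [hy], q₀, hq₀, by simpa using h⟩
      · rintro ⟨y, hy, q, hq, h⟩
        cases y with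
        | nil => simp at hy
        | cons b y =>
          exact ⟨y, by simpa using hy, step q (a, b), ⟨q, hq, b, rfl⟩, by simpa using h⟩
  constructor
  · rintro ⟨y, hy, h⟩
    refine ⟨(w.zip y).foldl step s₀, (key w {s₀} _).mpr ⟨y, hy, s₀, rfl, rfl⟩, ?_⟩
    have := (hF (w.zip y)).mp (by
      show R ((w.zip y).map Prod.fst) ((w.zip y).map Prod.snd)
      rw [List.map_fst_zip hy.ge, List.map_snd_zip hy.le]; exact h)
    exact this
  · rintro ⟨q', hq', h⟩
    obtain ⟨y, hy, q, hq, h'⟩ := (key w {s₀} q').mp hq'
    rw [Set.mem_singleton_iff] at hq
    subst hq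
    refine ⟨y, hy, ?_⟩
    have := (hF (w.zip y)).mpr (by rw [← h']; exact h)
    have h2 : R ((w.zip y).map Prod.fst) ((w.zip y).map Prod.snd) := this
    rwa [List.map_fst_zip hy.ge, List.map_snd_zip hy.le] at h2

theorem all {R : List α → List β → Prop}
    (h : Reg (fun w : List (α × β) => R (w.map Prod.fst) (w.map Prod.snd))) :
    Reg (fun w => ∀ y : List β, y.length = w.length → R w y) := by
  have h1 := (ex (R := fun w y => ¬ R w y) h.not).not
  refine h1.congr (fun w => ?_)
  push Not
  exact Iff.rfl

theorem forall_mem (p : α → Prop) : Reg (fun w : List α => ∀ a ∈ w, p a) := by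
  classical
  refine ⟨Bool, inferInstance, true, fun q a => q && decide (p a), fun q => q = true,
    fun w => ?_⟩
  have key : ∀ (w : List α) (q : Bool),
      w.foldl (fun q a => q && decide (p a)) q = true ↔ q = true ∧ ∀ a ∈ w, p a := by
    intro w
    induction w with
    | nil => intro q; simp
    | cons a w ih =>
      intro q
      rw [List.foldl_cons, ih]
      simp only [Bool.and_eq_true, decide_eq_true_eq, List.mem_cons, forall_eq_or_imp]
      tauto
  beta_reduce
  rw [key]
  simp

theorem head [Finite α] (p : Option α → Prop) : Reg (fun w : List α => p w.head?) := by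
  refine ⟨Option α, inferInstance, none, fun q a => some (q.getD a), p, fun w => ?_⟩
  have key : ∀ (w : List α) (q : Option α),
      w.foldl (fun q a => some (q.getD a)) q = (q <|> w.head?) := by
    intro w
    induction w with
    | nil => intro q; cases q <;> rfl
    | cons a w ih =>
      intro q
      rw [List.foldl_cons, ih]
      cases q <;> rfl
  rw [key]
  rfl

end Reg

/-! ### Functions with regular graph -/

/-- Length-preserving functions on words with regular graph. -/
def Aut (F : List α → List β) : Prop :=
  (∀ w, (F w).length = w.length) ∧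
    Reg (fun w : List (α × β) => F (w.map Prod.fst) = w.map Prod.snd)

theorem map_pair_eq_iff {f : δ → α} {g : δ → α} {w : List δ} :
    w.map f = w.map g ↔ ∀ x ∈ w, f x = g x := List.map_inj_left

namespace Aut

theorem of_rel {F : List α → List β} (hlen : ∀ w, (F w).length = w.length)
    {R : List α → List β → Prop} (hR : ∀ w y, y.length = w.length → (F w = y ↔ R w y))
    (h : Reg (fun w : List (α × β) => R (w.map Prod.fst) (w.map Prod.snd))) : Aut F := by
  refine ⟨hlen, h.congr (fun w => ?_)⟩
  exact hR _ _ (by simp)

theorem comap {F : List α → List β} (hF : Aut F) (φ : δ → α) :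
    Aut (fun w : List δ => F (w.map φ)) := by
  refine ⟨fun w => by rw [hF.1, List.length_map], ?_⟩
  refine (hF.2.comap (fun x : δ × β => (φ x.1, x.2))).congr (fun w => ?_)
  simp only [List.map_map]
  rfl

/-- Substitution of a function into a regular relation. -/
theorem subst {F : List α → List β} (hF : Aut F) {R : List α → List β → Prop}
    (h : Reg (fun w : List (α × β) => R (w.map Prod.fst) (w.map Prod.snd))) :
    Reg (fun w => R w (F w)) := by
  refine (Reg.ex (R := fun w y => F w = y ∧ R w y) (hF.2.and h)).congr (fun w => ?_)
  constructor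
  · intro h; exact ⟨F w, hF.1 w, rfl, h⟩
  · rintro ⟨y, -, rfl, h⟩; exact h

theorem reg {F : List α → List β} (hF : Aut F) {R : List β → Prop} (h : Reg R) :
    Reg (fun w => R (F w)) :=
  subst hF (R := fun _ y => R y) (h.comap Prod.snd)

theorem comp {G : List β → List γ} {F : List α → List β} (hG : Aut G) (hF : Aut F) :
    Aut (fun w => G (F w)) := by
  refine ⟨fun w => by rw [hG.1, hF.1], ?_⟩
  have h1 : Aut (fun w : List (α × γ) => F (w.map Prod.fst)) := hF.comap Prod.fst
  refine (subst h1 (R := fun w y => G y = w.map Prod.snd) ?_)
  refine (hG.2.comap (fun x : (α × γ) × β => (x.2, x.1.2))).congr (fun w => ?_)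
  simp only [List.map_map]
  rfl

theorem map (φ : α → β) : Aut (List.map φ) := by
  refine ⟨fun w => List.length_map _, ?_⟩
  refine (Reg.forall_mem (fun x : α × β => φ x.1 = x.2)).congr (fun w => ?_)
  rw [List.map_map, map_pair_eq_iff]
  rfl

theorem id : Aut (fun w : List α => w) := by
  have h := map (fun a : α => a)
  convert h using 1
  funext w
  simp

theorem zip {F : List α → List β} {G : List α → List γ} (hF : Aut F) (hG : Aut G) :
    Aut (fun w => (F w).zip (G w)) := by
  refine ⟨fun w => by rw [List.length_zip, hF.1, hG.1, min_self], ?_⟩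
  have h1 := hF.2.comap (fun x : α × (β × γ) => (x.1, x.2.1))
  have h2 := hG.2.comap (fun x : α × (β × γ) => (x.1, x.2.2))
  refine (h1.and h2).congr (fun w => ?_)
  simp only [List.map_map]
  have e1 : (F (w.map (Prod.fst ∘ fun x : α × (β × γ) => (x.1, x.2.1)))).length = w.length := by
    rw [hF.1, List.length_map]
  have e2 : (G (w.map (Prod.fst ∘ fun x : α × (β × γ) => (x.1, x.2.2)))).length = w.length := by
    rw [hG.1, List.length_map]
  constructor
  · intro h
    constructor
    · have := congrArg (List.map Prod.fst) h
      rw [List.map_fst_zip (by rw [hF.1, hG.1]), List.map_map] at this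
      exact this
    · have := congrArg (List.map Prod.snd) h
      rw [List.map_snd_zip (by rw [hF.1, hG.1]), List.map_map] at this
      exact this
  · rintro ⟨h3, h4⟩
    have e3 : (fun x : α × (β × γ) => x.1) = Prod.fst := rfl
    have h3' : F (w.map Prod.fst) = w.map (fun x => x.2.1) := h3
    have h4' : G (w.map Prod.fst) = w.map (fun x => x.2.2) := h4
    rw [h3', h4', List.zip_map']

theorem finCase {ι : Type} [Finite ι] {κ : List α → ι} (hκ : ∀ i, Reg (fun w => κ w = i))
    {F : ι → List α → List β} (hF : ∀ i, Aut (F i)) : Aut (fun w => F (κ w) w) := by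
  refine ⟨fun w => (hF _).1 w, ?_⟩
  have h := Reg.exFin (R := fun i (w : List (α × β)) =>
    κ (w.map Prod.fst) = i ∧ F i (w.map Prod.fst) = w.map Prod.snd)
    (fun i => ((hκ i).comap Prod.fst).and (hF i).2)
  refine h.congr (fun w => ?_)
  constructor
  · intro h; exact ⟨_, rfl, h⟩
  · rintro ⟨i, rfl, h⟩; exact h

theorem ite {p : List α → Prop} [DecidablePred p] (hp : Reg p) {F G : List α → List β}
    (hF : Aut F) (hG : Aut G) : Aut (fun w => if p w then F w else G w) := by
  refine ⟨fun w => ?_, ?_⟩
  · beta_reduce
    split_ifs
    · exact hF.1 w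
    · exact hG.1 w
  · have h := ((hp.comap Prod.fst).and hF.2).or ((hp.comap Prod.fst).not.and hG.2)
    refine h.congr (fun w => ?_)
    by_cases h : p (w.map Prod.fst) <;> simp [h]

/-- Equality of two functions with regular graph. -/
theorem eqReg {F G : List α → List β} (hF : Aut F) (hG : Aut G) :
    Reg (fun w => F w = G w) := by
  refine subst hG (R := fun w y => F w = y) ?_
  exact hF.2

theorem modHead (φ : α → α) : Aut (List.modifyHead φ) := by
  refine ⟨fun w => by simp, ?_⟩
  classical
  -- the state tells whether a letter has been read, and whether all is well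
  refine ⟨Bool × Bool, inferInstance, (false, true), fun q x =>
    (true, q.2 && decide (if q.1 then x.1 = x.2 else φ x.1 = x.2)), fun q => q.2 = true,
    fun w => ?_⟩
  have key : ∀ (w : List (α × α)) (b : Bool),
      (w.foldl (fun q x => ((true, q.2 && decide (if q.1 then x.1 = x.2 else φ x.1 = x.2)) :
        Bool × Bool)) (true, b)).2 = true ↔ b = true ∧ w.map Prod.fst = w.map Prod.snd := by
    intro w
    induction w with
    | nil => intro b; simp
    | cons x w ih =>
      intro b
      rw [List.foldl_cons, ih]
      simp only [if_true, Bool.and_eq_true, decide_eq_true_eq, List.map_cons, List.cons.injEq]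
      tauto
  cases w with
  | nil => simp
  | cons x w =>
    beta_reduce
    rw [List.foldl_cons, key]
    simp

/-- The right shift: the letter `a` comes in at the left, the last letter is lost. -/
theorem shiftR [Finite α] (a : α) : Aut (fun w : List α => (a :: w).take w.length) := by
  refine ⟨fun w => by simp, ?_⟩
  classical
  refine ⟨Option α, inferInstance, some a, fun q x =>
    q.bind (fun b => if x.2 = b then some x.1 else none), fun q => q.isSome = true,
    fun w => ?_⟩
  have hnone : ∀ w : List (α × α), w.foldl (fun q x =>
      (q.bind (fun b => if x.2 = b then some x.1 else none) : Option α)) none = none := by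
    intro w
    induction w with
    | nil => rfl
    | cons x w ih => rw [List.foldl_cons]; exact ih
  have key : ∀ (w : List (α × α)) (a : α),
      (w.foldl (fun q x => (q.bind (fun b => if x.2 = b then some x.1 else none) : Option α))
        (some a)).isSome = true ↔
        (a :: w.map Prod.fst).take (w.map Prod.fst).length = w.map Prod.snd := by
    intro w
    induction w with
    | nil => intro a; simp
    | cons x w ih =>
      intro a
      rw [List.foldl_cons]
      simp only [Option.bind_some, List.map_cons, List.length_cons, List.take_succ_cons,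
        List.cons.injEq]
      by_cases h : x.2 = a
      · rw [if_pos h, ih x.1]
        simp [h]
      · rw [if_neg h, hnone]
        simp only [Option.isSome_none, Bool.false_eq_true, false_iff, not_and]
        intro h'; exact absurd h'.symm h
  exact (key w a).symm

/-- The left shift: the letter `a` comes in at the right, the first letter is lost. -/
theorem shiftL [Finite α] (a : α) :
    Aut (fun w : List α => (w ++ [a]).tail) := by
  refine ⟨fun w => by simp, ?_⟩
  classical
  -- the state: the expected letter, if something has been read
  refine ⟨Option (Option α), inferInstance, some none, fun q x =>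
    q.bind (fun e => match e with
      | none => some (some x.2)
      | some b => if x.1 = b then some (some x.2) else none),
    fun q => q = some none ∨ q = some (some a), fun w => ?_⟩
  have hnone : ∀ w : List (α × α), w.foldl (fun q x =>
    (q.bind (fun e => match e with
      | none => some (some x.2)
      | some b => if x.1 = b then some (some x.2) else none) : Option (Option α))) none =
        none := by
    intro w
    induction w with
    | nil => rfl
    | cons x w ih => rw [List.foldl_cons]; exact ih
  have key : ∀ (w : List (α × α)) (b : α),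
      (w.foldl (fun q x =>
        (q.bind (fun e => match e with
          | none => some (some x.2)
          | some b => if x.1 = b then some (some x.2) else none) : Option (Option α)))
        (some (some b)) = some none ∨ w.foldl (fun q x =>
        (q.bind (fun e => match e with
          | none => some (some x.2)
          | some b => if x.1 = b then some (some x.2) else none) : Option (Option α)))
        (some (some b)) = some (some a)) ↔
        w.map Prod.fst ++ [a] = b :: w.map Prod.snd := by
    intro w
    induction w with
    | nil => intro b; simp [eq_comm]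
    | cons x w ih =>
      intro b
      rw [List.foldl_cons]
      simp only [Option.bind_some, List.map_cons, List.cons_append, List.cons.injEq]
      by_cases h : x.1 = b
      · rw [if_pos h, ih x.2]
        simp [h]
      · rw [if_neg h, hnone]
        simp [h]
  cases w with
  | nil => simp
  | cons x w =>
    rw [List.foldl_cons]
    have := key w x.2
    simp only [Option.bind_some, List.map_cons, List.cons_append, List.tail_cons]
    exact this.symm

/-- The inverse of a permutation with regular graph. -/
theorem symm {f : Equiv.Perm (List α)} (hf : Aut f) : Aut f.symm := by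
  refine ⟨fun w => ?_, ?_⟩
  · have := hf.1 (f.symm w)
    rwa [f.apply_symm_apply, eq_comm] at this
  · refine (hf.2.comap (fun x : α × α => (x.2, x.1))).congr (fun w => ?_)
    simp only [List.map_map]
    have e1 : w.map (Prod.fst ∘ fun x : α × α => (x.2, x.1)) = w.map Prod.snd := rfl
    have e2 : w.map (Prod.snd ∘ fun x : α × α => (x.2, x.1)) = w.map Prod.fst := rfl
    rw [e1, e2]
    constructor
    · intro h; rw [← h, f.apply_symm_apply]
    · intro h; rw [← h, f.symm_apply_apply]

end Aut

/-! ### Binary relations -/

/-- Regular binary relations between words of the same length. -/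
def Reg2 (B : List α → List β → Prop) : Prop :=
  Reg (fun p : List (α × β) => B (p.map Prod.fst) (p.map Prod.snd))

theorem Reg2.app {B : List α → List β → Prop} (hB : Reg2 B) {f : List δ → List α}
    {g : List δ → List β} (hf : Aut f) (hg : Aut g) : Reg (fun u => B (f u) (g u)) := by
  refine ((hf.zip hg).reg hB).congr (fun u => ?_)
  rw [List.map_fst_zip (by rw [hf.1, hg.1]), List.map_snd_zip (by rw [hf.1, hg.1])]

theorem Reg2.ex {B : List α → List β → Prop} (hB : Reg2 B) :
    Reg (fun w => ∃ y : List β, y.length = w.length ∧ B w y) := Reg.ex hB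

theorem Reg2.all {B : List α → List β → Prop} (hB : Reg2 B) :
    Reg (fun w => ∀ y : List β, y.length = w.length → B w y) := Reg.all hB

theorem Reg2.eq : Reg2 (fun x y : List α => x = y) := by
  refine (Reg.forall_mem (fun p : α × α => p.1 = p.2)).congr (fun w => ?_)
  beta_reduce
  rw [map_pair_eq_iff]

theorem Aut.of_reg2 {F : List α → List β} (hlen : ∀ w, (F w).length = w.length)
    {R : List α → List β → Prop} (hR : ∀ w y, y.length = w.length → (F w = y ↔ R w y))
    (h : Reg2 R) : Aut F := Aut.of_rel hlen hR h

end Pool.Agent.PPS
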