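import Pool.Agent.PPS.Auto.Build

/-!
# The clocked tour
-/

namespace Pool.Agent.PPS

section run

variable {L : Type} [Finite L] {N : ℕ} (e : L ≃ Fin N) {s : List L → List L} (hs : Aut s)
  (acc : L → Prop) (M : ℕ) [NeZero M]

/-- Half-edges (letters). -/
abbrev HL (L : Type) : Type := L × Bool

/-- The tour with a counter of the passages at the root. -/
noncomputable def Yhk : AP (HL L × Fin M) :=
  (AP.onFst (AP.tour e hs)).mul (AP.ctrl (wrapW e s) (reg_wrapW hs e) (AP.counter M))

/-- The next configuration is accepting. -/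
def accW (s : List L → List L) (acc : L → Prop) (w : List (HL L)) : Prop :=
  ∃ l, (s (cfg w)).head? = some l ∧ acc l

include hs in
theorem reg_accW : Reg (accW s acc) :=
  (hs.comp aut_cfg).reg (Reg.head (fun o => ∃ l, o = some l ∧ acc l))

/-- The condition for the inversion of the output bit. -/
def condW (e : L ≃ Fin N) (s : List L → List L) (acc : L → Prop) (M : ℕ)
    (w : List (HL L × Fin M)) : Prop :=
  wrapW e s (w.map Prod.fst) ∧ accW s acc (w.map Prod.fst) ∧ num (w.map Prod.snd) = 0

theorem reg_num_zero : Reg (fun w : List (Fin M) => num w = 0) := by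
  have h : Reg2 (fun x y : List (Fin M) => num y < num x) :=
    (reg_num_lt M).app (Aut.map Prod.snd) (Aut.map Prod.fst)
  refine h.ex.not.congr (fun w => ?_)
  constructor
  · rintro h ⟨y, -, hy⟩; omega
  · intro h
    by_contra h0
    apply h
    refine ⟨dig M w.length 0, by simp, ?_⟩
    rw [num_dig, Nat.zero_mod]
    omega

include hs in
theorem reg_condW : Reg (condW e s acc M) :=
  ((Aut.map Prod.fst).reg (reg_wrapW hs e)).and (((Aut.map Prod.fst).reg (reg_accW hs acc)).and
    ((Aut.map Prod.snd).reg (reg_num_zero M)))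

/-- Letters of the data part. -/
abbrev DL (L : Type) (M : ℕ) : Type := (HL L × Fin M) × Bool

/-- The tour on the data part. -/
noncomputable def Yd : AP (DL L M) := AP.onFst (Yhk e hs M)

/-- The tour with output. -/
noncomputable def Fd : AP (DL L M) :=
  (Yd e hs M).mul (AP.ctrl (condW e s acc M) (reg_condW e hs acc M) AP.flipHd)

/-- Active phases, forward. -/
def hotA (p : ℕ) : Prop := p = 0 ∨ p = 4 ∨ p = 16 ∨ p = 36 ∨ p = 44

/-- Active phases, backward. -/
def hotB (p : ℕ) : Prop := p = 1 ∨ p = 5 ∨ p = 17 ∨ p = 37 ∨ p = 45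

instance : DecidablePred hotA := fun p => by unfold hotA; infer_instance

instance : DecidablePred hotB := fun p => by unfold hotB; infer_instance

/-- The phase of a clock satisfies `h`. -/
def phW (h : ℕ → Prop) (κ : List (Fin M)) : Prop := ∃ a, κ.head? = some a ∧ h a

omit [NeZero M] in
theorem reg_phW (h : ℕ → Prop) : Reg (phW M h) :=
  Reg.head (fun o : Option (Fin M) => ∃ a, o = some a ∧ h a)

/-- The permutation. -/
noncomputable def clockP : AP (Fin M × DL L M) :=
  (AP.onFst (AP.counter M)).mul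
    ((AP.ctrl (phW M hotB) (reg_phW M hotB) (Yd e hs M).inv).mul
      (AP.ctrl (phW M hotA) (reg_phW M hotA) (Fd e hs acc M)))

/-- The action on the data part in phase `p`. -/
noncomputable def actD (p : ℕ) (δ : List (DL L M)) : List (DL L M) :=
  if hotA p then (Fd e hs acc M).f δ else if hotB p then (Yd e hs M).f.symm δ else δ

theorem length_actD (p : ℕ) (δ : List (DL L M)) :
    (actD e hs acc M p δ).length = δ.length := by
  unfold actD
  split_ifs
  · exact (Fd e hs acc M).length_f δ
  · exact (Yd e hs M).inv.length_f δ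
  · rfl

theorem hotA_not_hotB {p : ℕ} (h : hotA p) : ¬ hotB p := by
  unfold hotA at h; unfold hotB; omega

theorem phW_dig (h : ℕ → Prop) (n t : ℕ) :
    phW M h (dig M (n + 1) t) ↔ h (t / M ^ n % M) := by
  unfold phW dig
  simp

theorem clockP_dig (n t : ℕ) (δ : List (DL L M)) (hδ : δ.length = n + 1) :
    (clockP e hs acc M).f ((dig M (n + 1) t).zip δ) =
      (dig M (n + 1) (t + 1)).zip (actD e hs acc M (t / M ^ n % M) δ) := by
  classical
  unfold clockP
  rw [AP.mul_apply, AP.mul_apply, AP.ctrl_zip (by simp [hδ])]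
  have hl : (dig M (n + 1) t).length = (if phW M hotA (dig M (n + 1) t) then
      (Fd e hs acc M).f δ else δ).length := by
    split_ifs
    · rw [(Fd e hs acc M).length_f, length_dig, hδ]
    · rw [length_dig, hδ]
  rw [AP.ctrl_zip hl]
  have hl' : (dig M (n + 1) t).length = (if phW M hotB (dig M (n + 1) t) then
      (Yd e hs M).inv.f (if phW M hotA (dig M (n + 1) t) then (Fd e hs acc M).f δ else δ)
      else (if phW M hotA (dig M (n + 1) t) then (Fd e hs acc M).f δ else δ)).length := by
    rw [hl]
    split_ifs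
    · rw [(Yd e hs M).inv.length_f]
    · rfl
    · rw [(Yd e hs M).inv.length_f]
    · rfl
  rw [AP.onFst_zip hl', AP.counter_dig]
  congr 1
  unfold actD
  rw [phW_dig, phW_dig]
  by_cases h1 : hotA (t / M ^ n % M)
  · simp [h1, hotA_not_hotB h1]
  · by_cases h2 : hotB (t / M ^ n % M)
    · simp only [h1, h2, if_true, if_false]
      rfl
    · simp [h1, h2]

theorem length_iter {α : Type} {F : List α → List α} (hF : ∀ w, (F w).length = w.length)
    (j : ℕ) (w : List α) : (F^[j] w).length = w.length := by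
  induction j with
  | zero => rfl
  | succ j ih => rw [Function.iterate_succ_apply', hF, ih]

/-- A stretch of time in one phase. -/
theorem clockP_phase {n t p : ℕ} (j : ℕ) {δ : List (DL L M)} (hδ : δ.length = n + 1)
    (h : ∀ i < j, (t + i) / M ^ n % M = p) :
    (clockP e hs acc M).f^[j] ((dig M (n + 1) t).zip δ) =
      (dig M (n + 1) (t + j)).zip ((actD e hs acc M p)^[j] δ) := by
  induction j with
  | zero => rfl
  | succ j ih =>
    rw [Function.iterate_succ_apply', ih (fun i hi => h i (by omega)), clockP_dig,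
      h j (by omega), Function.iterate_succ_apply' (actD e hs acc M p)]
    · rfl
    · rw [length_iter (length_actD e hs acc M p), hδ]

/-- Idle time. -/
theorem clockP_idle {n t : ℕ} (j : ℕ) {δ : List (DL L M)} (hδ : δ.length = n + 1)
    (h : ∀ i < j, ¬ hotA ((t + i) / M ^ n % M) ∧ ¬ hotB ((t + i) / M ^ n % M)) :
    (clockP e hs acc M).f^[j] ((dig M (n + 1) t).zip δ) = (dig M (n + 1) (t + j)).zip δ := by
  induction j with
  | zero => rfl
  | succ j ih =>
    rw [Function.iterate_succ_apply', ih (fun i hi => h i (by omega)), clockP_dig _ _ _ _ _ _ _ hδ]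
    unfold actD
    rw [if_neg (h j (by omega)).1, if_neg (h j (by omega)).2]
    rfl

/-! ### The run of the tour from an instance -/

section inst

variable {n : ℕ} (c₀ : List L)

/-- The initial half-edge. -/
def h₀ (n : ℕ) (c₀ : List L) : List (HL L) := c₀.zip (true :: List.replicate n false)

open Classical in
/-- The number of passages at the root before time `j`. -/
noncomputable def wcnt (n : ℕ) (j : ℕ) : ℕ :=
  Nat.count (fun i => wrapW e s ((EW e s)^[i] (h₀ n c₀))) j

theorem Yhk_iterate (hc : c₀.length = n + 1) (j : ℕ) :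
    (Yhk e hs M).f^[j] ((h₀ n c₀).zip (dig M (n + 1) 0)) =
      ((EW e s)^[j] (h₀ n c₀)).zip (dig M (n + 1) (wcnt e (s := s) c₀ n j)) := by
  classical
  have hlen : ∀ j, ((EW e s)^[j] (h₀ n c₀)).length = n + 1 := by
    intro j
    rw [length_iter (aut_EW (e := e) hs.1 hs).1]
    simp [h₀, hc]
  induction j with
  | zero => simp [wcnt]
  | succ j ih =>
    rw [Function.iterate_succ_apply', ih]
    unfold Yhk
    rw [AP.mul_apply, AP.ctrl_zip (by rw [hlen, length_dig])]
    have h1 : (if wrapW e s ((EW e s)^[j] (h₀ n c₀)) then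
        (AP.counter M).f (dig M (n + 1) (wcnt e (s := s) c₀ n j))
        else dig M (n + 1) (wcnt e (s := s) c₀ n j)) =
        dig M (n + 1) (wcnt e (s := s) c₀ n (j + 1)) := by
      unfold wcnt
      rw [Nat.count_succ]
      split_ifs
      · rw [AP.counter_dig]
      · rfl
    rw [h1, AP.onFst_zip (by rw [hlen, length_dig]), Function.iterate_succ_apply' (EW e s)]
    rfl

open Classical in
/-- The output bit is inverted at time `j`. -/
noncomputable def flp (n : ℕ) : ℕ → Bool
  | 0 => false
  | j + 1 => xor (flp n j)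
      (decide (condW e s acc M ((Yhk e hs M).f^[j] ((h₀ n c₀).zip (dig M (n + 1) 0)))))

theorem Fd_iterate (hc : c₀.length = n + 1) (o : Bool) (z : List Bool) (hz : z.length = n)
    (j : ℕ) :
    (Fd e hs acc M).f^[j] (((h₀ n c₀).zip (dig M (n + 1) 0)).zip (o :: z)) =
      ((Yhk e hs M).f^[j] ((h₀ n c₀).zip (dig M (n + 1) 0))).zip
        ((xor o (flp e hs acc M c₀ n j)) :: z) := by
  classical
  have hlen : ∀ j, ((Yhk e hs M).f^[j] ((h₀ n c₀).zip (dig M (n + 1) 0))).length = n + 1 := by
    intro j
    rw [length_iter (Yhk e hs M).length_f]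
    simp [h₀, hc]
  induction j with
  | zero => simp [flp]
  | succ j ih =>
    rw [Function.iterate_succ_apply', ih]
    unfold Fd
    rw [AP.mul_apply, AP.ctrl_zip (by rw [hlen]; simp [hz])]
    have h1 : (if condW e s acc M ((Yhk e hs M).f^[j] ((h₀ n c₀).zip (dig M (n + 1) 0))) then
        AP.flipHd.f ((xor o (flp e hs acc M c₀ n j)) :: z) else
          ((xor o (flp e hs acc M c₀ n j)) :: z)) =
        (xor o (flp e hs acc M c₀ n (j + 1))) :: z := by
      have hs1 : flp e hs acc M c₀ n (j + 1) = xor (flp e hs acc M c₀ n j)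
        (decide (condW e s acc M ((Yhk e hs M).f^[j] ((h₀ n c₀).zip (dig M (n + 1) 0))))) := rfl
      rw [hs1]
      split_ifs with h
      · rw [AP.flipHd_cons]
        simp [h]
      · simp [h]
    rw [h1]
    unfold Yd
    rw [AP.onFst_zip (by rw [hlen]; simp [hz]), Function.iterate_succ_apply' (Yhk e hs M).f]

theorem Yd_symm_iterate (o : List Bool) (w : List (HL L × Fin M)) (hw : w.length = o.length)
    (j : ℕ) :
    (Yd e hs M).f.symm^[j] (((Yhk e hs M).f^[j] w).zip o) = w.zip o := by
  have h : ∀ j, (Yd e hs M).f^[j] (w.zip o) = ((Yhk e hs M).f^[j] w).zip o := by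
    intro j
    induction j with
    | zero => rfl
    | succ j ih =>
      rw [Function.iterate_succ_apply', ih, Function.iterate_succ_apply']
      unfold Yd
      rw [AP.onFst_zip (by rw [length_iter (Yhk e hs M).length_f, hw])]
  rw [← h j]
  exact (Function.LeftInverse.iterate (Yd e hs M).f.symm_apply_apply j) _

end inst

/-! ### The result of the tour -/

section result

variable {n : ℕ} {c₀ r : List L} (hc : c₀.length = n + 1) (hr : s r = r) (hne : s c₀ ≠ c₀)
  (hreach : ∃ t, s^[t] c₀ = r)

include hc hs in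
theorem EW_h₀ (j : ℕ) : ((tourE s (ckey e))^[j] (c₀, true)).1.length = n + 1 ∧
    (EW e s)^[j] (h₀ n c₀) = ((tourE s (ckey e))^[j] (c₀, true)).1.zip
      (((tourE s (ckey e))^[j] (c₀, true)).2 :: List.replicate n false) := by
  have := EW_iterate_zip (e := e) hs.1 (c := c₀) (t := true) (j := List.replicate n false)
    (by simp [hc]) j
  rw [List.length_replicate] at this
  exact this

include hc hr hne hreach hs in
theorem wrap_acc (j : ℕ) (hw : wrapW e s ((EW e s)^[j] (h₀ n c₀))) :
    s (cfg ((EW e s)^[j] (h₀ n c₀))) = r := by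
  obtain ⟨h1, h2⟩ := EW_h₀ e hs hc j
  rw [h2] at hw ⊢
  have hl : ((tourE s (ckey e))^[j] (c₀, true)).1.length = (List.replicate n false).length + 1 := by
    rw [h1]; simp
  rw [cfg_zip hl]
  rw [wrapW_zip hs.1 hl] at hw
  have hlead : LeadsTo s r (c₀, true) := ⟨hne, hreach⟩
  exact (leadsTo_iterate (key := ckey e) (desc_finite hs.1) hr hlead j).wrap hw hr

include hc hr hne hreach hs in
theorem exists_wrap [Fintype L] :
    ∃ j < (Fintype.card (HL L)) ^ (n + 1), wrapW e s ((EW e s)^[j] (h₀ n c₀)) := by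
  have hex : ∃ j, wrapW e s ((EW e s)^[j] (h₀ n c₀)) := by
    have htree : Tree s c₀ := by
      obtain ⟨t, ht⟩ := hreach
      exact ⟨t, by rw [ht]; exact hr⟩
    obtain ⟨x, hx1, j, hx2⟩ := reach_wrap (key := ckey e) (desc_finite hs.1) c₀ hne htree
    refine ⟨j, ?_⟩
    obtain ⟨h1, h2⟩ := EW_h₀ e hs hc j
    rw [h2, wrapW_zip hs.1 (by rw [h1]; simp)]
    rw [hx2]
    exact hx1
  have h := exists_lt_of_reach (aut_EW (e := e) hs.1 hs).1 (h₀ n c₀) hex
  have hl : (h₀ n c₀).length = n + 1 := by simp [h₀, hc]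
  rw [hl] at h
  exact h

include hc hr hne hreach in
theorem flp_eq [Fintype L] (hM : (Fintype.card (HL L)) ^ (n + 1) ≤ M ^ n) :
    flp e hs acc M c₀ n (M ^ n) = true ↔ ∃ l, r.head? = some l ∧ acc l := by
  classical
  have hM1 : 1 ≤ M := NeZero.one_le
  have hcond : ∀ j, condW e s acc M ((Yhk e hs M).f^[j] ((h₀ n c₀).zip (dig M (n + 1) 0))) ↔
      wrapW e s ((EW e s)^[j] (h₀ n c₀)) ∧ (∃ l, r.head? = some l ∧ acc l) ∧
        wcnt e (s := s) c₀ n j % M ^ (n + 1) = 0 := by
    intro j
    have hl : ((EW e s)^[j] (h₀ n c₀)).length =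
        (dig M (n + 1) (wcnt e (s := s) c₀ n j)).length := by
      rw [length_iter (aut_EW (e := e) hs.1 hs).1]
      simp [h₀, hc]
    rw [Yhk_iterate e hs M c₀ hc j]
    unfold condW
    rw [AP.fst_zip hl, AP.snd_zip hl, num_dig]
    constructor
    · rintro ⟨h1, h2, h3⟩
      refine ⟨h1, ?_, h3⟩
      unfold accW at h2
      rw [wrap_acc e hs hc hr hne hreach j h1] at h2
      exact h2
    · rintro ⟨h1, h2, h3⟩
      refine ⟨h1, ?_, h3⟩
      unfold accW
      rw [wrap_acc e hs hc hr hne hreach j h1]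
      exact h2
  have hflp : ∀ j ≤ M ^ (n + 1), (flp e hs acc M c₀ n j = true ↔
      (∃ l, r.head? = some l ∧ acc l) ∧ ∃ i < j, wrapW e s ((EW e s)^[i] (h₀ n c₀))) := by
    intro j
    induction j with
    | zero => intro _; simp [flp]
    | succ j ih =>
      intro hj
      have hs1 : flp e hs acc M c₀ n (j + 1) = xor (flp e hs acc M c₀ n j)
        (decide (condW e s acc M ((Yhk e hs M).f^[j] ((h₀ n c₀).zip (dig M (n + 1) 0))))) := rfl
      rw [hs1]
      have ih' := ih (by omega)
      have hcnt : wcnt e (s := s) c₀ n j % M ^ (n + 1) = 0 ↔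
          ¬ ∃ i < j, wrapW e s ((EW e s)^[i] (h₀ n c₀)) := by
        have h1 : wcnt e (s := s) c₀ n j ≤ j := Nat.count_le _
        rw [Nat.mod_eq_of_lt (by omega)]
        unfold wcnt
        rw [Nat.count_eq_card_filter_range, Finset.card_eq_zero, Finset.filter_eq_empty_iff]
        simp
      have hsucc : (∃ i < j + 1, wrapW e s ((EW e s)^[i] (h₀ n c₀))) ↔
          (∃ i < j, wrapW e s ((EW e s)^[i] (h₀ n c₀))) ∨
            wrapW e s ((EW e s)^[j] (h₀ n c₀)) := by
        constructor
        · rintro ⟨i, hi, h⟩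
          rcases Nat.lt_or_ge i j with h' | h'
          · exact Or.inl ⟨i, h', h⟩
          · obtain rfl : i = j := by omega
            exact Or.inr h
        · rintro (⟨i, hi, h⟩ | h)
          · exact ⟨i, by omega, h⟩
          · exact ⟨j, by omega, h⟩
      have hc' := hcond j
      rw [hcnt] at hc'
      rw [hsucc]
      by_cases h4 : condW e s acc M ((Yhk e hs M).f^[j] ((h₀ n c₀).zip (dig M (n + 1) 0)))
      · rw [decide_eq_true h4]
        obtain ⟨h5, h6, h7⟩ := hc'.mp h4
        have h8 : flp e hs acc M c₀ n j = false := by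
          cases h9 : flp e hs acc M c₀ n j with
          | false => rfl
          | true => exact absurd (ih'.mp h9).2 h7
        rw [h8]
        exact ⟨fun _ => ⟨h6, Or.inr h5⟩, fun _ => rfl⟩
      · rw [decide_eq_false h4, Bool.xor_false, ih']
        constructor
        · rintro ⟨h5, h6⟩
          exact ⟨h5, Or.inl h6⟩
        · rintro ⟨h5, h6 | h6⟩
          · exact ⟨h5, h6⟩
          · refine ⟨h5, ?_⟩
            by_contra h7
            exact h4 (hc'.mpr ⟨h6, h5, h7⟩)
  rw [hflp (M ^ n) (Nat.pow_le_pow_right hM1 (by omega))]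
  obtain ⟨j, hj, hw⟩ := exists_wrap e hs hc hr hne hreach
  exact ⟨fun h => h.1, fun h => ⟨h, j, by omega, hw⟩⟩

end result

end run

end Pool.Agent.PPS
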