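import Pool.Agent.PPS.Auto.Run

/-!
# The schedule of the clocked tour
-/

namespace Pool.Agent.PPS

theorem phase_eq {M n p i : ℕ} (hi : i < M ^ n) (hp : p < M) : (p * M ^ n + i) / M ^ n % M = p := by
  have hpos : 0 < M ^ n := by omega
  rw [Nat.mul_comm, Nat.mul_add_div hpos, Nat.div_eq_of_lt hi, Nat.add_zero, Nat.mod_eq_of_lt hp]

section sched

variable {L : Type} [Finite L] {N : ℕ} (e : L ≃ Fin N) {s : List L → List L} (hs : Aut s)
  (acc : L → Prop) (M : ℕ) [NeZero M] (n : ℕ) (c₀ : List L)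

/-- The data part at the beginning of a phase. -/
def WD (o : Bool) : List (DL L M) :=
  ((h₀ n c₀).zip (dig M (n + 1) 0)).zip (o :: List.replicate n false)

/-- The word at the beginning of phase `p`. -/
def WW (p : ℕ) (o : Bool) : List (Fin M × DL L M) := (dig M (n + 1) (p * M ^ n)).zip (WD M n c₀ o)

variable (hc : c₀.length = n + 1)

include hc in
omit [Finite L] in
theorem length_h₀ : (h₀ n c₀).length = n + 1 := by simp [h₀, hc]

include hc in
omit [Finite L] in
theorem length_WD (o : Bool) : (WD M n c₀ o).length = n + 1 := by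
  simp [WD, length_h₀ n c₀ hc]

include hc in
omit [Finite L] in
theorem length_WW (p : ℕ) (o : Bool) : (WW M n c₀ p o).length = n + 1 := by
  simp [WW, length_WD M n c₀ hc]

include hc in
theorem WW_active {p : ℕ} (o : Bool) (h1 : hotA p) (h2 : hotB (p + 1)) (h3 : p + 1 < M) :
    (clockP e hs acc M).f^[2 * M ^ n] (WW M n c₀ p o) =
      WW M n c₀ (p + 2) (xor o (flp e hs acc M c₀ n (M ^ n))) := by
  have hz : (List.replicate n false).length = n := by simp
  rw [two_mul, Function.iterate_add_apply]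
  unfold WW
  have e1 : (clockP e hs acc M).f^[M ^ n] ((dig M (n + 1) (p * M ^ n)).zip (WD M n c₀ o)) =
      (dig M (n + 1) ((p + 1) * M ^ n)).zip ((actD e hs acc M p)^[M ^ n] (WD M n c₀ o)) := by
    have := clockP_phase e hs acc M (n := n) (t := p * M ^ n) (p := p) (M ^ n)
      (length_WD M n c₀ hc o) (fun i hi => phase_eq hi (by omega))
    rw [this]
    congr 2
    ring
  have ha : actD e hs acc M p = (Fd e hs acc M).f := by
    funext δ; unfold actD; rw [if_pos h1]
  have hb : actD e hs acc M (p + 1) = (Yd e hs M).f.symm := by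
    funext δ; unfold actD
    rw [if_neg, if_pos h2]
    intro h; exact hotA_not_hotB h h2
  rw [e1, ha]
  have e2 : (Fd e hs acc M).f^[M ^ n] (WD M n c₀ o) =
      ((Yhk e hs M).f^[M ^ n] ((h₀ n c₀).zip (dig M (n + 1) 0))).zip
        ((xor o (flp e hs acc M c₀ n (M ^ n))) :: List.replicate n false) :=
    Fd_iterate e hs acc M c₀ hc o _ hz (M ^ n)
  rw [e2]
  have hlen : ((Yhk e hs M).f^[M ^ n] ((h₀ n c₀).zip (dig M (n + 1) 0))).length = n + 1 := by
    rw [length_iter (Yhk e hs M).length_f]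
    simp [length_h₀ n c₀ hc]
  have e3 := clockP_phase e hs acc M (n := n) (t := (p + 1) * M ^ n) (p := p + 1) (M ^ n)
      (δ := ((Yhk e hs M).f^[M ^ n] ((h₀ n c₀).zip (dig M (n + 1) 0))).zip
        ((xor o (flp e hs acc M c₀ n (M ^ n))) :: List.replicate n false))
      (by simp [hlen]) (fun i hi => phase_eq hi (by omega))
  rw [e3, hb, Yd_symm_iterate]
  · unfold WD
    congr 2
    ring
  · simp [length_h₀ n c₀ hc]

include hc in
theorem WW_idle {p : ℕ} (o : Bool) (k : ℕ) (hk : p + k ≤ M)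
    (h : ∀ i < k, ¬ hotA (p + i) ∧ ¬ hotB (p + i)) :
    (clockP e hs acc M).f^[k * M ^ n] (WW M n c₀ p o) = WW M n c₀ (p + k) o := by
  unfold WW
  rw [clockP_idle e hs acc M _ (length_WD M n c₀ hc o)]
  · congr 2
    ring
  · intro i hi
    have hpos : 0 < M ^ n := Nat.pos_of_ne_zero (by rintro h0; rw [h0] at hi; omega)
    have h1 : i / M ^ n < k := Nat.div_lt_of_lt_mul (by rwa [Nat.mul_comm] at hi)
    have h2 : (p * M ^ n + i) / M ^ n % M = p + i / M ^ n := by
      rw [Nat.mul_comm, Nat.mul_add_div hpos, Nat.mod_eq_of_lt (by omega)]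
    rw [h2]
    exact h _ h1

include hc in
theorem WW_16 (hM : 128 ≤ M) :
    (clockP e hs acc M).f^[16 * M ^ n] (WW M n c₀ 0 false) = WW M n c₀ 16 false := by
  have e1 := WW_active e hs acc M n c₀ hc (p := 0) false (by unfold hotA; omega)
    (by unfold hotB; omega) (by omega)
  have e2 := WW_idle e hs acc M n c₀ hc (p := 2) (xor false (flp e hs acc M c₀ n (M ^ n))) 2
    (by omega) (by intro i hi; unfold hotA hotB; omega)
  have e3 := WW_active e hs acc M n c₀ hc (p := 4) (xor false (flp e hs acc M c₀ n (M ^ n)))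
    (by unfold hotA; omega) (by unfold hotB; omega) (by omega)
  have e4 := WW_idle e hs acc M n c₀ hc (p := 6) false 10
    (by omega) (by intro i hi; unfold hotA hotB; omega)
  have e5 : 16 * M ^ n = 10 * M ^ n + (2 * M ^ n + (2 * M ^ n + 2 * M ^ n)) := by ring
  rw [e5, Function.iterate_add_apply, Function.iterate_add_apply, Function.iterate_add_apply,
    e1, e2, e3, Bool.false_xor, Bool.xor_self, e4]

include hc in
theorem WW_44 (hM : 128 ≤ M) :
    (clockP e hs acc M).f^[44 * M ^ n] (WW M n c₀ 0 false) = WW M n c₀ 44 false := by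
  have e1 := WW_active e hs acc M n c₀ hc (p := 16) false (by unfold hotA; omega)
    (by unfold hotB; omega) (by omega)
  have e2 := WW_idle e hs acc M n c₀ hc (p := 18) (xor false (flp e hs acc M c₀ n (M ^ n))) 18
    (by omega) (by intro i hi; unfold hotA hotB; omega)
  have e3 := WW_active e hs acc M n c₀ hc (p := 36) (xor false (flp e hs acc M c₀ n (M ^ n)))
    (by unfold hotA; omega) (by unfold hotB; omega) (by omega)
  have e4 := WW_idle e hs acc M n c₀ hc (p := 38) false 6
    (by omega) (by intro i hi; unfold hotA hotB; omega)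
  have e5 : 44 * M ^ n = 6 * M ^ n + (2 * M ^ n + (18 * M ^ n + (2 * M ^ n + 16 * M ^ n))) := by
    ring
  rw [e5, Function.iterate_add_apply, Function.iterate_add_apply, Function.iterate_add_apply,
    Function.iterate_add_apply, WW_16 e hs acc M n c₀ hc hM,
    e1, e2, e3, Bool.false_xor, Bool.xor_self, e4]

include hc in
/-- The three starting words, and the output. -/
theorem WW_out (hM : 128 ≤ M) {a : ℕ} (ha : a = 0 ∨ a = 16 ∨ a = 44) :
    (clockP e hs acc M).f^[2 * M ^ n] (WW M n c₀ a false) =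
      WW M n c₀ (a + 2) (flp e hs acc M c₀ n (M ^ n)) := by
  have e1 := WW_active e hs acc M n c₀ hc (p := a) false (by unfold hotA; omega)
    (by unfold hotB; omega) (by omega)
  rw [e1, Bool.false_xor]

include hc in
theorem WW_start (hM : 128 ≤ M) {a : ℕ} (ha : a = 0 ∨ a = 16 ∨ a = 44) :
    (clockP e hs acc M).f^[a * M ^ n] (WW M n c₀ 0 false) = WW M n c₀ a false := by
  rcases ha with rfl | rfl | rfl
  · rw [Nat.zero_mul]; rfl
  · exact WW_16 e hs acc M n c₀ hc hM
  · exact WW_44 e hs acc M n c₀ hc hM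

/-! ### Calm phases -/

omit [NeZero M] in
/-- Nothing happens in the last phases. -/
def calmQ (q : ℕ) : Prop := ∀ j < 3, ¬ hotA ((q + (M - 2) + j) % M) ∧ ¬ hotB ((q + (M - 2) + j) % M)

instance : DecidablePred (calmQ M) := fun q => by unfold calmQ; infer_instance

omit [NeZero M] in
theorem calm_of (hM : 128 ≤ M) {q : ℕ} (hq : q < M)
    (h : ¬ (q < 4 ∨ (4 ≤ q ∧ q < 8) ∨ (16 ≤ q ∧ q < 20) ∨ (36 ≤ q ∧ q < 40) ∨
      (44 ≤ q ∧ q < 48))) : calmQ M q := by
  intro j hj
  have h1 : (q + (M - 2) + j) % M = q + j - 2 := by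
    rw [show q + (M - 2) + j = (q + j - 2) + M by omega, Nat.add_mod_right,
      Nat.mod_eq_of_lt (by omega)]
  rw [h1]
  unfold hotA hotB
  omega

omit [NeZero M] in
/-- One of the three starting points is calm. -/
theorem exists_calm (hM : 128 ≤ M) {q q₁ q₂ : ℕ} (hq : q < M) (hq₁ : q₁ < M) (hq₂ : q₂ < M)
    (h1 : q = (q₁ + 16) % M) (h2 : q = (q₂ + 44) % M) : calmQ M q ∨ calmQ M q₁ ∨ calmQ M q₂ := by
  by_contra hcon
  push Not at hcon
  obtain ⟨c1, c2, c3⟩ := hcon
  have d1 := not_not.mp (fun h => c1 (calm_of M hM hq h))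
  have d2 := not_not.mp (fun h => c2 (calm_of M hM hq₁ h))
  have d3 := not_not.mp (fun h => c3 (calm_of M hM hq₂ h))
  have h1' : q = q₁ + 16 ∨ q + M = q₁ + 16 := by
    rcases Nat.lt_or_ge (q₁ + 16) M with h | h
    · left; rw [h1, Nat.mod_eq_of_lt h]
    · right
      rw [h1, show q₁ + 16 = (q₁ + 16 - M) + M by omega, Nat.add_mod_right,
        Nat.mod_eq_of_lt (by omega)]
  have h2' : q = q₂ + 44 ∨ q + M = q₂ + 44 := by
    rcases Nat.lt_or_ge (q₂ + 44) M with h | h
    · left; rw [h2, Nat.mod_eq_of_lt h]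
    · right
      rw [h2, show q₂ + 44 = (q₂ + 44 - M) + M by omega, Nat.add_mod_right,
        Nat.mod_eq_of_lt (by omega)]
  omega

/-- The first letter two phases earlier. -/
def earlier (x : Fin M × DL L M) : Fin M × DL L M := (Fin.ofNat M ((x.1 : ℕ) + (M - 2)), x.2)

/-- Calm time. -/
theorem clockP_calm (hM : 128 ≤ M) (w : List (Fin M × DL L M)) (x : Fin M × DL L M)
    (hw : w.length = n) (hcalm : calmQ M (x.1 : ℕ)) :
    (clockP e hs acc M).f^[2 * M ^ n] (earlier M x :: w) = x :: w := by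
  have hpos : 0 < M ^ n := by have := NeZero.pos M; positivity
  -- the clock
  obtain ⟨κ, δ, hl, hw'⟩ := AP.exists_zip' w
  have hκ : κ.length = n := by
    rw [hw', List.length_zip, ← hl, min_self] at hw
    exact hw
  have hδ : δ.length = n := by rw [← hl, hκ]
  obtain ⟨a, d⟩ := x
  have e1 : ∀ b : ℕ, Fin.ofNat M b :: κ = dig M (n + 1) (b * M ^ n + num κ) := by
    intro b
    have h1 := num_lt κ
    rw [hκ] at h1
    unfold dig
    congr 1
    · rw [Nat.mul_comm, Nat.mul_add_div hpos, Nat.div_eq_of_lt h1, Nat.add_zero]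
    · rw [← dig_num κ, hκ]
      apply dig_congr
      rw [num_dig]
      simp [Nat.mod_eq_of_lt h1]
  have e2 : earlier M (a, d) :: w =
      (dig M (n + 1) (((a : ℕ) + (M - 2)) * M ^ n + num κ)).zip (d :: δ) := by
    rw [← e1, hw']
    rfl
  have e3 : (a, d) :: w = (dig M (n + 1) ((a : ℕ) * M ^ n + num κ)).zip (d :: δ) := by
    rw [← e1, hw', List.zip_cons_cons]
    congr 2
    simp
  have hlt := num_lt κ
  rw [hκ] at hlt
  rw [e2, e3, clockP_idle e hs acc M _ (by simp [hδ])]
  · congr 1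
    apply dig_congr
    have h2 : ((a : ℕ) + (M - 2)) * M ^ n + num κ + 2 * M ^ n =
        (a : ℕ) * M ^ n + num κ + M ^ (n + 1) := by
      obtain ⟨M', rfl⟩ : ∃ M', M = M' + 2 := ⟨M - 2, by omega⟩
      rw [pow_succ, Nat.add_sub_cancel]
      ring
    rw [h2, Nat.add_mod_right]
  · intro i hi
    have h3 : (((a : ℕ) + (M - 2)) * M ^ n + num κ + i) / M ^ n =
        (a : ℕ) + (M - 2) + (num κ + i) / M ^ n := by
      rw [Nat.add_assoc, Nat.mul_comm, Nat.mul_add_div hpos]
    rw [h3]
    apply hcalm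
    apply Nat.div_lt_of_lt_mul
    omega

end sched

end Pool.Agent.PPS
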