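import Pool.Agent.PPS.Auto.CycSucc

/-!
# The tour around the trees of a functional graph
-/

namespace Pool.Agent.PPS

/-! ### The tour on half-edges -/

section tour

variable {C : Type} (s : C → C) (key : C → ℕ)

open Classical in
/-- The vertex at which a half-edge sits.  The half-edge of `c` with the bit true is the lower
half of the edge from `c` to `s c`, the half-edge with the bit false is its upper half. -/
noncomputable def vtx (x : C × Bool) : Option C :=
  if s x.1 = x.1 then none else some (bif x.2 then x.1 else s x.1)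

/-- The position of a half-edge at its vertex. -/
def hkey (x : C × Bool) : WithTop ℕ := bif x.2 then ⊤ else (key x.1 : WithTop ℕ)

open Classical in
/-- The other half of the edge. -/
noncomputable def oth (x : C × Bool) : C × Bool := if s x.1 = x.1 then x else (x.1, !x.2)

/-- One step of the tour. -/
noncomputable def tourE (x : C × Bool) : C × Bool := cs (vtx s) (hkey key) (oth s x)

/-- Reachability by the tour. -/
def Rch (x y : C × Bool) : Prop := ∃ n, (tourE s key)^[n] x = y

variable {s key}

theorem Rch.refl (x : C × Bool) : Rch s key x x := ⟨0, rfl⟩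

theorem Rch.trans {x y z : C × Bool} (h : Rch s key x y) (h' : Rch s key y z) :
    Rch s key x z := by
  obtain ⟨n, rfl⟩ := h
  obtain ⟨n', rfl⟩ := h'
  exact ⟨n' + n, by rw [Function.iterate_add_apply]⟩

theorem Rch.step (x : C × Bool) : Rch s key x (tourE s key x) := ⟨1, rfl⟩

theorem vtx_of_ne {c : C} (hc : s c ≠ c) (t : Bool) :
    vtx s (c, t) = some (bif t then c else s c) := by
  unfold vtx
  rw [if_neg hc]

theorem vtx_eq_some {x : C × Bool} {v : C} (h : vtx s x = some v) :
    s x.1 ≠ x.1 ∧ ((x = (v, true)) ∨ (x.2 = false ∧ s x.1 = v)) := by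
  obtain ⟨c, t⟩ := x
  unfold vtx at h
  by_cases hc : s c = c
  · rw [if_pos hc] at h; cases h
  · rw [if_neg hc] at h
    refine ⟨hc, ?_⟩
    cases t with
    | true => left; simp only [cond_true, Option.some.injEq] at h; rw [h]
    | false => right; simp only [cond_false, Option.some.injEq] at h; exact ⟨rfl, h⟩

variable (hk : ∀ c c', s c = s c' → key c = key c' → c = c')
  (hD : ∀ v, {c | ∃ j, s^[j] c = v}.Finite)

include hk in
theorem tour_inj (x y : C × Bool) (hx : vtx s x ≠ none) (h : vtx s x = vtx s y)
    (h' : hkey key x = hkey key y) : x = y := by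
  obtain ⟨v, hv⟩ := Option.ne_none_iff_exists'.mp hx
  rw [hv] at h
  obtain ⟨h1, h2⟩ := vtx_eq_some hv
  obtain ⟨h3, h4⟩ := vtx_eq_some h.symm
  obtain ⟨c, t⟩ := x
  obtain ⟨c', t'⟩ := y
  rcases h2 with h2 | ⟨h2, h2'⟩ <;> rcases h4 with h4 | ⟨h4, h4'⟩
  · rw [h2, h4]
  · simp only [Prod.mk.injEq] at h2 h4
    obtain ⟨rfl, rfl⟩ := h2
    subst h4
    simp [hkey] at h'
  · simp only [Prod.mk.injEq] at h2 h4
    obtain ⟨rfl, rfl⟩ := h4
    subst h2
    simp [hkey] at h'
  · simp only at h2 h2' h4 h4'
    subst h2
    subst h4
    simp only [hkey, cond_false, Nat.cast_inj] at h'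
    rw [hk c c' (by rw [h2', h4']) h']

include hD in
theorem tour_fin (x : C × Bool) (hx : vtx s x ≠ none) : {y | vtx s y = vtx s x}.Finite := by
  obtain ⟨v, hv⟩ := Option.ne_none_iff_exists'.mp hx
  rw [hv]
  refine (((hD v).image (fun c => (c, false))).union (Set.finite_singleton (v, true))).subset ?_
  intro y hy
  obtain ⟨h1, h2⟩ := vtx_eq_some (show vtx s y = some v from hy)
  rcases h2 with h2 | ⟨h2, h3⟩
  · right; exact h2
  · left; exact ⟨y.1, ⟨1, h3⟩, by rw [← h2]⟩

include hk hD in
theorem tourE_injective : Function.Injective (tourE s key) := by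
  intro x y h
  have h1 := cs_injective (vtx s) (hkey key) (tour_inj hk) (tour_fin hD) h
  unfold oth at h1
  split_ifs at h1 with hx hy hy
  · exact h1
  · exfalso
    apply hy
    rw [h1] at hx
    exact hx
  · exfalso
    apply hx
    rw [← h1] at hy
    exact hy
  · obtain ⟨c, t⟩ := x
    obtain ⟨c', t'⟩ := y
    simp only [Prod.mk.injEq] at h1
    rw [Prod.mk.injEq]
    exact ⟨h1.1, by simpa using h1.2⟩

theorem oth_of_ne {c : C} (hc : s c ≠ c) (t : Bool) : oth s (c, t) = (c, !t) := by
  unfold oth
  rw [if_neg hc]

include hD in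
theorem tourE_spec {c : C} (hc : s c ≠ c) (t : Bool) :
    IsSucc (vtx s) (hkey key) (c, !t) (tourE s key (c, t)) := by
  unfold tourE
  rw [oth_of_ne hc]
  apply cs_spec _ _ (tour_fin hD)
  rw [vtx_of_ne hc]
  simp

/-- The vertex `v` leads to a root. -/
def Tree (s : C → C) (v : C) : Prop := ∃ d, s (s^[d] v) = s^[d] v

theorem Tree.next {v : C} (h : Tree s v) : Tree s (s v) := by
  obtain ⟨d, hd⟩ := h
  refine ⟨d, ?_⟩
  rw [← Function.iterate_succ_apply, Function.iterate_succ_apply', hd]
  exact hd

theorem Tree.of_next {v : C} (h : Tree s (s v)) : Tree s v := by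
  obtain ⟨d, hd⟩ := h
  exact ⟨d + 1, hd⟩

/-- A vertex of a tree that is not a root does not lie on a cycle. -/
theorem Tree.not_periodic {v : C} (h : Tree s v) (hv : s v ≠ v) (j : ℕ) :
    s^[j + 1] v ≠ v := by
  intro hj
  obtain ⟨d, hd⟩ := h
  -- all later iterates are equal to the root
  have h1 : ∀ k, s^[d + k] v = s^[d] v := by
    intro k
    induction k with
    | zero => rfl
    | succ k ih => rw [← Nat.add_assoc, Function.iterate_succ_apply', ih, hd]
  have h2 : ∀ q, s^[q * (j + 1)] v = v := by
    intro q
    induction q with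
    | zero => simp
    | succ q ih => rw [Nat.succ_mul, Nat.add_comm, Function.iterate_add_apply, ih, hj]
  have h3 : s^[d] v = v := by
    obtain ⟨e, he⟩ : ∃ e, d * (j + 1) = d + e := ⟨d * j, by ring⟩
    rw [← h1 e, ← he, h2]
  apply hv
  rw [h3] at hd
  exact hd

include hD in
/-- The tour goes around a subtree. -/
theorem traverse (v : C) (hv : s v ≠ v) (ht : Tree s v) :
    Rch s key (v, false) (v, true) ∧ ∀ c, s c = v → Rch s key (c, false) (v, true) := by
  -- induction on the number of descendants
  induction hn : {c | ∃ j, s^[j] c = v}.ncard using Nat.strong_induction_on generalizing v with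
  | _ n ih =>
    subst hn
    -- a child has fewer descendants
    have hchild : ∀ c, s c = v → s c ≠ c ∧ Tree s c ∧
        {c' | ∃ j, s^[j] c' = c}.ncard < {c | ∃ j, s^[j] c = v}.ncard := by
      intro c hc
      have h1 : s c ≠ c := by
        intro h; rw [hc] at h; subst h; exact hv hc
      refine ⟨h1, Tree.of_next (by rw [hc]; exact ht), ?_⟩
      apply Set.ncard_lt_ncard _ (hD v)
      refine ⟨?_, ?_⟩
      · rintro c' ⟨j, hj⟩
        exact ⟨j + 1, by rw [Function.iterate_succ_apply', hj, hc]⟩
      · intro hsub
        obtain ⟨j, hj⟩ := hsub (show v ∈ {c | ∃ j, s^[j] c = v} from ⟨0, rfl⟩)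
        apply ht.not_periodic hv j
        rw [Function.iterate_succ_apply', hj, hc]
    have hsib : ∀ c, s c = v → Rch s key (c, false) (v, true) := by
      intro c
      induction hm : {c' | s c' = v ∧ key c < key c'}.ncard using
        Nat.strong_induction_on generalizing c with
      | _ m ih2 =>
        subst hm
        intro hc
        obtain ⟨h1, h2, h3⟩ := hchild c hc
        have h4 := (ih _ h3 c h1 h2 rfl).1
        refine h4.trans ((Rch.step _).trans ?_)
        obtain ⟨h5, h6⟩ := tourE_spec (key := key) hD h1 true
        generalize tourE s key (c, true) = y at h5 h6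
        rw [Bool.not_true, vtx_of_ne h1, cond_false, hc] at h5
        obtain ⟨h7, h8⟩ := vtx_eq_some h5
        rcases h8 with h8 | ⟨h8, h9⟩
        · rw [h8]; exact Rch.refl _
        · obtain ⟨c', t'⟩ := y
          simp only at h8 h9
          subst h8
          apply ih2 _ _ c' rfl h9
          have hlt : key c < key c' := by
            rcases h6 with ⟨h10, -⟩ | ⟨h10, -⟩
            · simpa [hkey] using h10
            · exfalso
              apply h10 (v, true)
              · rw [vtx_of_ne hv, Bool.not_true, vtx_of_ne h1, cond_true, cond_false, hc]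
              · simp [hkey]
          have hfin : {c' | s c' = v ∧ key c < key c'}.Finite :=
            (hD v).subset (fun c' hc' => ⟨1, hc'.1⟩)
          apply Set.ncard_lt_ncard _ hfin
          refine ⟨fun z hz => ⟨hz.1, hlt.trans hz.2⟩, fun hsub => ?_⟩
          have := hsub (show c' ∈ {c' | s c' = v ∧ key c < key c'} from ⟨h9, hlt⟩)
          exact lt_irrefl _ this.2
    refine ⟨?_, hsib⟩
    refine (Rch.step _).trans ?_
    obtain ⟨h5, -⟩ := tourE_spec (key := key) hD hv false
    generalize tourE s key (v, false) = y at h5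
    rw [Bool.not_false, vtx_of_ne hv, cond_true] at h5
    obtain ⟨h7, h8⟩ := vtx_eq_some h5
    rcases h8 with h8 | ⟨h8, h9⟩
    · rw [h8]; exact Rch.refl _
    · obtain ⟨c', t'⟩ := y
      simp only at h8 h9
      subst h8
      exact hsib c' h9

/-- The half-edges at which the tour passes the root from the last to the first subtree. -/
def IsWrap (s : C → C) (key : C → ℕ) (x : C × Bool) : Prop :=
  x.2 = true ∧ s x.1 ≠ x.1 ∧ s (s x.1) = s x.1 ∧
    ∀ c', s c' = s x.1 → s c' ≠ c' → ¬ key x.1 < key c'

include hD in
theorem reach_wrap (c : C) (hc : s c ≠ c) (ht : Tree s c) :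
    ∃ x, IsWrap s key x ∧ Rch s key (c, true) x := by
  obtain ⟨d, hd⟩ := ht
  induction d generalizing c with
  | zero => exact absurd hd hc
  | succ d ih =>
    rw [Function.iterate_succ_apply] at hd
    have hts : Tree s (s c) := ⟨d, hd⟩
    by_cases hr : s (s c) = s c
    · -- the next vertex is the root
      induction hm : {c' | s c' = s c ∧ s c' ≠ c' ∧ key c < key c'}.ncard using
        Nat.strong_induction_on generalizing c with
      | _ m ih2 =>
        subst hm
        by_cases hlast : ∀ c', s c' = s c → s c' ≠ c' → ¬ key c < key c'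
        · exact ⟨(c, true), ⟨rfl, hc, hr, hlast⟩, Rch.refl _⟩
        · push Not at hlast
          obtain ⟨c₁, h1, h2, h3⟩ := hlast
          obtain ⟨h5, h6⟩ := tourE_spec (key := key) hD hc true
          have hstep := Rch.step (s := s) (key := key) (c, true)
          generalize tourE s key (c, true) = y at h5 h6 hstep
          rw [Bool.not_true, vtx_of_ne hc, cond_false] at h5
          obtain ⟨h7, h8⟩ := vtx_eq_some h5
          rcases h8 with h8 | ⟨h8, h9⟩
          · exfalso
            rw [h8] at h7
            exact h7 hr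
          · obtain ⟨c', t'⟩ := y
            simp only at h7 h8 h9
            subst h8
            have hlt : key c < key c' := by
              rcases h6 with ⟨h10, -⟩ | ⟨h10, -⟩
              · simpa [hkey] using h10
              · exfalso
                apply h10 (c₁, false)
                · rw [vtx_of_ne h2, Bool.not_true, vtx_of_ne hc, cond_false, cond_false, h1]
                · simpa [hkey] using h3
            have htc' : Tree s c' := Tree.of_next (by rw [h9]; exact hts)
            have h10 := (traverse (key := key) hD c' h7 htc').1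
            have hfin : {c' | s c' = s c ∧ s c' ≠ c' ∧ key c < key c'}.Finite :=
              (hD (s c)).subset (fun c' hc' => ⟨1, hc'.1⟩)
            have hcard : {c'' | s c'' = s c' ∧ s c'' ≠ c'' ∧ key c' < key c''}.ncard <
                {c' | s c' = s c ∧ s c' ≠ c' ∧ key c < key c'}.ncard := by
              rw [h9]
              apply Set.ncard_lt_ncard _ hfin
              refine ⟨fun z hz => ⟨hz.1, hz.2.1, hlt.trans hz.2.2⟩, fun hsub => ?_⟩
              have := hsub (show c' ∈ {c' | s c' = s c ∧ s c' ≠ c' ∧ key c < key c'} from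
                ⟨h9, h7, hlt⟩)
              exact lt_irrefl _ this.2.2
            obtain ⟨x, hx1, hx2⟩ := ih2 _ hcard c' h7 (by rw [h9]; exact hd)
              (by rw [h9]; exact hts) (by rw [h9]; exact hr) rfl
            exact ⟨x, hx1, hstep.trans (h10.trans hx2)⟩
    · -- go down to the next vertex
      obtain ⟨x, hx1, hx2⟩ := ih (s c) hr hd
      refine ⟨x, hx1, Rch.trans ?_ hx2⟩
      obtain ⟨h5, -⟩ := tourE_spec (key := key) hD hc true
      refine (Rch.step _).trans ?_
      generalize tourE s key (c, true) = y at h5
      rw [Bool.not_true, vtx_of_ne hc, cond_false] at h5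
      obtain ⟨h7, h8⟩ := vtx_eq_some h5
      rcases h8 with h8 | ⟨h8, h9⟩
      · rw [h8]; exact Rch.refl _
      · obtain ⟨c', t'⟩ := y
        simp only at h8 h9
        subst h8
        exact (traverse hD (s c) hr hts).2 c' h9

/-- The root to which a half-edge leads. -/
def LeadsTo (s : C → C) (r : C) (x : C × Bool) : Prop := s x.1 ≠ x.1 ∧ ∃ j, s^[j] x.1 = r

include hD in
theorem leadsTo_tourE {r : C} (hr : s r = r) {x : C × Bool} (h : LeadsTo s r x) :
    LeadsTo s r (tourE s key x) := by
  obtain ⟨c, t⟩ := x
  obtain ⟨hc, j, hj⟩ := h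
  simp only at hc hj
  -- the successor leads to `r`
  have hnext : ∃ j, s^[j] (s c) = r := by
    cases j with
    | zero =>
      rw [Function.iterate_zero_apply] at hj
      subst hj
      exact absurd hr hc
    | succ j => exact ⟨j, by rw [← Function.iterate_succ_apply]; exact hj⟩
  obtain ⟨h5, -⟩ := tourE_spec (key := key) hD hc t
  generalize tourE s key (c, t) = y at h5
  rw [vtx_of_ne hc] at h5
  obtain ⟨h7, h8⟩ := vtx_eq_some h5
  have hv : ∃ j, s^[j] (bif !t then c else s c) = r := by
    cases t
    · exact ⟨j, hj⟩
    · exact hnext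
  generalize (bif !t then c else s c) = v at h5 h8 hv
  refine ⟨h7, ?_⟩
  rcases h8 with h8 | ⟨h8, h9⟩
  · rw [h8]; exact hv
  · obtain ⟨j, hj⟩ := hv
    exact ⟨j + 1, by rw [Function.iterate_succ_apply, h9]; exact hj⟩

include hD in
theorem leadsTo_iterate {r : C} (hr : s r = r) {x : C × Bool} (h : LeadsTo s r x) (n : ℕ) :
    LeadsTo s r ((tourE s key)^[n] x) := by
  induction n with
  | zero => exact h
  | succ n ih => rw [Function.iterate_succ_apply']; exact leadsTo_tourE hD hr ih

/-- A wrapping half-edge that leads to `r` sits just above `r`. -/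
theorem LeadsTo.wrap {r : C} {x : C × Bool} (h : LeadsTo s r x)
    (hw : IsWrap s key x) (hr : s r = r) : s x.1 = r := by
  obtain ⟨hc, j, hj⟩ := h
  obtain ⟨-, -, h2, -⟩ := hw
  cases j with
  | zero =>
    rw [Function.iterate_zero_apply] at hj
    rw [hj] at hc
    exact absurd hr hc
  | succ j =>
    rw [Function.iterate_succ_apply] at hj
    rw [← hj]
    have : ∀ j, s^[j] (s x.1) = s x.1 := by
      intro j
      induction j with
      | zero => rfl
      | succ j ih => rw [Function.iterate_succ_apply', ih, h2]
    exact (this j).symm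

end tour

/-- Reachable sets are reached soon. -/
theorem exists_lt_of_reach {α : Type} [Fintype α] {F : List α → List α}
    (hlen : ∀ w, (F w).length = w.length) (x : List α) {Q : List α → Prop}
    (h : ∃ n, Q (F^[n] x)) : ∃ n < Fintype.card α ^ x.length, Q (F^[n] x) := by
  classical
  have hlen' : ∀ n, (F^[n] x).length = x.length := by
    intro n
    induction n with
    | zero => rfl
    | succ n ih => rw [Function.iterate_succ_apply', hlen, ih]
  refine ⟨Nat.find h, ?_, Nat.find_spec h⟩
  by_contra hcon
  push Not at hcon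
  let G : Fin (Fintype.card α ^ x.length + 1) → List.Vector α x.length := fun i =>
    ⟨F^[(i : ℕ)] x, hlen' _⟩
  have hG : ¬ Function.Injective G := by
    intro hG
    have := Fintype.card_le_of_injective G hG
    rw [Fintype.card_fin, card_vector] at this
    omega
  rw [Function.not_injective_iff] at hG
  obtain ⟨i, j, hij, hne⟩ := hG
  have h1 : F^[(i : ℕ)] x = F^[(j : ℕ)] x := congrArg Subtype.val hij
  have key : ∀ i j : ℕ, i < j → j ≤ Nat.find h → F^[i] x = F^[j] x → False := by
    intro i j hij hj heq
    have h2 : F^[Nat.find h - j + i] x = F^[Nat.find h] x := by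
      rw [Function.iterate_add_apply, heq, ← Function.iterate_add_apply,
        show Nat.find h - j + j = Nat.find h by omega]
    exact Nat.find_min h (m := Nat.find h - j + i) (by omega) (by rw [h2]; exact Nat.find_spec h)
  rcases lt_or_gt_of_ne (fun h => hne (Fin.ext h) : (i : ℕ) ≠ j) with h' | h'
  · exact key i j h' (by have := j.2; omega) h1
  · exact key j i h' (by have := i.2; omega) h1.symm

end Pool.Agent.PPS
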