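import Pool.Agent.PPS.Auto.Tour

/-!
# The tour on words
-/

namespace Pool.Agent.PPS

section words

variable {L : Type} {N : ℕ} (e : L ≃ Fin N) (s : List L → List L)

/-- The half bit of a word. -/
def hb (w : List (L × Bool)) : Bool := (w.head?.map Prod.snd).getD false

/-- The configuration part of a word. -/
def cfg (w : List (L × Bool)) : List L := w.map Prod.fst

/-- The inert bits of a word. -/
def inert (w : List (L × Bool)) : List Bool := (w.map Prod.snd).modifyHead (fun _ => false)

/-- The word does not carry a half-edge. -/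
def isRoot (w : List (L × Bool)) : Prop := w = [] ∨ s (cfg w) = cfg w

/-- The key of configurations. -/
def ckey (c : List L) : ℕ := num (c.map e)

open Classical in
/-- The vertex of a word, with the inert bits. -/
noncomputable def vW (w : List (L × Bool)) : Option (List L × List Bool) :=
  if isRoot s w then none else some (if hb w = true then cfg w else s (cfg w), inert w)

/-- The position of a word at its vertex. -/
def kW (w : List (L × Bool)) : WithTop ℕ := bif hb w then ⊤ else (ckey e (cfg w) : WithTop ℕ)

open Classical in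
/-- The other half of the edge. -/
noncomputable def thW (w : List (L × Bool)) : List (L × Bool) :=
  if isRoot s w then w else w.modifyHead (fun a => (a.1, !a.2))

/-- One step of the tour on words. -/
noncomputable def EW (w : List (L × Bool)) : List (L × Bool) := cs (vW s) (kW e) (thW s w)

/-- Wrapping words. -/
def wrapW (w : List (L × Bool)) : Prop :=
  w ≠ [] ∧ hb w = true ∧ s (cfg w) ≠ cfg w ∧ s (s (cfg w)) = s (cfg w) ∧
    ∀ c', c'.length = w.length → s c' = s (cfg w) → s c' ≠ c' →
      ¬ ckey e (cfg w) < ckey e c'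

variable {e s}

/-! ### Words with a given configuration and half bit -/

section zip

variable {c : List L} {t : Bool} {j : List Bool}

theorem cfg_zip (h : c.length = j.length + 1) : cfg (c.zip (t :: j)) = c := by
  unfold cfg
  rw [List.map_fst_zip]
  simp [h]

theorem snd_zip (h : c.length = j.length + 1) : (c.zip (t :: j)).map Prod.snd = t :: j := by
  rw [List.map_snd_zip]
  simp [h]

theorem zip_ne_nil (h : c.length = j.length + 1) : c.zip (t :: j) ≠ [] := by
  cases c with
  | nil => simp at h
  | cons a c => simp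

theorem hb_zip (h : c.length = j.length + 1) : hb (c.zip (t :: j)) = t := by
  cases c with
  | nil => simp at h
  | cons a c => rfl

theorem inert_zip (h : c.length = j.length + 1) : inert (c.zip (t :: j)) = false :: j := by
  unfold inert
  rw [snd_zip h]
  rfl

theorem isRoot_zip (h : c.length = j.length + 1) : isRoot s (c.zip (t :: j)) ↔ s c = c := by
  unfold isRoot
  rw [cfg_zip h]
  simp [zip_ne_nil h]

theorem vW_zip (h : c.length = j.length + 1) :
    vW s (c.zip (t :: j)) = (vtx s (c, t)).map (fun v => (v, false :: j)) := by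
  unfold vW vtx
  rw [cfg_zip h, hb_zip h, inert_zip h]
  by_cases hc : s c = c
  · rw [if_pos ((isRoot_zip h).mpr hc), if_pos hc]
    rfl
  · rw [if_neg (fun h' => hc ((isRoot_zip h).mp h')), if_neg hc]
    cases t <;> rfl

theorem kW_zip (h : c.length = j.length + 1) :
    kW e (c.zip (t :: j)) = hkey (ckey e) (c, t) := by
  unfold kW hkey
  rw [cfg_zip h, hb_zip h]

theorem thW_zip (h : c.length = j.length + 1) :
    thW s (c.zip (t :: j)) = (oth s (c, t)).1.zip ((oth s (c, t)).2 :: j) := by
  unfold thW oth
  by_cases hc : s c = c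
  · rw [if_pos ((isRoot_zip h).mpr hc), if_pos hc]
  · rw [if_neg (fun h' => hc ((isRoot_zip h).mp h')), if_neg hc]
    cases c with
    | nil => simp at h
    | cons a c => rfl

theorem wrapW_zip (hs : ∀ w, (s w).length = w.length) (h : c.length = j.length + 1) :
    wrapW e s (c.zip (t :: j)) ↔ IsWrap s (ckey e) (c, t) := by
  unfold wrapW IsWrap
  rw [cfg_zip h, hb_zip h]
  have hl : (c.zip (t :: j)).length = c.length := by simp [h]
  rw [hl]
  constructor
  · rintro ⟨-, h1, h2, h3, h4⟩
    refine ⟨h1, h2, h3, fun c' h5 h6 => h4 c' ?_ h5 h6⟩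
    rw [← hs c', h5, hs]
  · rintro ⟨h1, h2, h3, h4⟩
    exact ⟨zip_ne_nil h, h1, h2, h3, fun c' _ h5 h6 => h4 c' h5 h6⟩

end zip

/-- Words are given by their configuration, half bit and inert bits. -/
theorem exists_zip {w : List (L × Bool)} (hw : w ≠ []) :
    ∃ (c : List L) (t : Bool) (j : List Bool), c.length = j.length + 1 ∧
      w = c.zip (t :: j) := by
  cases w with
  | nil => exact absurd rfl hw
  | cons a w =>
    refine ⟨a.1 :: w.map Prod.fst, a.2, w.map Prod.snd, by simp, ?_⟩
    rw [List.zip_cons_cons]
    congr 1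
    rw [List.zip_map']
    simp

variable (hs : ∀ w, (s w).length = w.length)

include hs in
theorem ckey_inj (c c' : List L) (h : s c = s c') (h' : ckey e c = ckey e c') : c = c' := by
  have hl : c.length = c'.length := by rw [← hs c, h, hs]
  have := num_inj (by simp [hl]) h'
  exact List.map_injective_iff.mpr e.injective this

theorem length_iterate' (hs : ∀ w, (s w).length = w.length) (j : ℕ) (c : List L) :
    (s^[j] c).length = c.length := by
  induction j with
  | zero => rfl
  | succ j ih => rw [Function.iterate_succ_apply', hs, ih]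

include hs in
theorem desc_finite [Finite L] (v : List L) : {c | ∃ j, s^[j] c = v}.Finite := by
  refine (finite_length v.length).subset ?_
  rintro c ⟨j, hj⟩
  show c.length = v.length
  rw [← hj, length_iterate' hs]

include hs in
theorem vW_len (x y : List (L × Bool)) (hx : vW s x ≠ none) (h : vW s x = vW s y) :
    x.length = y.length := by
  have h1 : ∀ x : List (L × Bool), (if hb x = true then cfg x else s (cfg x)).length =
      x.length := by
    intro x
    split_ifs
    · simp [cfg]
    · rw [hs]; simp [cfg]
  unfold vW at hx h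
  by_cases hrx : isRoot s x
  · rw [if_pos hrx] at hx; exact absurd rfl hx
  · rw [if_neg hrx] at h
    by_cases hry : isRoot s y
    · rw [if_pos hry] at h; cases h
    · rw [if_neg hry] at h
      simp only [Option.some.injEq, Prod.mk.injEq] at h
      rw [← h1 x, h.1, h1]

theorem vW_none_iff {x : List (L × Bool)} : vW s x = none ↔ isRoot s x := by
  unfold vW
  split_ifs with h <;> simp [h]

include hs in
theorem vW_inj (x y : List (L × Bool)) (hx : vW s x ≠ none) (h : vW s x = vW s y)
    (h' : kW e x = kW e y) : x = y := by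
  have hxr : ¬ isRoot s x := fun h => hx (vW_none_iff.mpr h)
  have hyr : ¬ isRoot s y := fun h1 => hx (h.trans (vW_none_iff.mpr h1))
  have hx0 : x ≠ [] := fun h => hxr (Or.inl h)
  have hy0 : y ≠ [] := fun h => hyr (Or.inl h)
  obtain ⟨c, t, j, h1, rfl⟩ := exists_zip hx0
  obtain ⟨c', t', j', h1', rfl⟩ := exists_zip hy0
  rw [vW_zip h1, vW_zip h1'] at h
  rw [vW_zip h1] at hx
  rw [kW_zip h1, kW_zip h1'] at h'
  have h2 : vtx s (c, t) ≠ none := by intro h3; rw [h3] at hx; exact hx rfl
  obtain ⟨v, hv⟩ := Option.ne_none_iff_exists'.mp h2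
  rw [hv] at h
  cases hv' : vtx s (c', t') with
  | none => rw [hv'] at h; cases h
  | some v' =>
    rw [hv'] at h
    simp only [Option.map_some, Option.some.injEq, Prod.mk.injEq, List.cons.injEq,
      true_and] at h
    obtain ⟨h3, h4⟩ := h
    have := tour_inj (ckey_inj (e := e) hs) (c, t) (c', t') h2 (by rw [hv, hv', h3]) h'
    simp only [Prod.mk.injEq] at this
    rw [this.1, this.2, h4]

theorem vW_zip_eq_iff {c c' : List L} {t t' : Bool} {j : List Bool}
    (h : c.length = j.length + 1) (h' : c'.length = j.length + 1) :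
    vW s (c.zip (t :: j)) = vW s (c'.zip (t' :: j)) ↔ vtx s (c, t) = vtx s (c', t') := by
  rw [vW_zip h, vW_zip h']
  constructor
  · intro h1
    cases h2 : vtx s (c, t) <;> cases h3 : vtx s (c', t') <;> rw [h2, h3] at h1
    · cases h1
    · cases h1
    · simpa using h1
  · intro h1; rw [h1]

theorem length_vtx {c : List L} {t : Bool} {v : List L} (hs : ∀ w, (s w).length = w.length)
    (h : vtx s (c, t) = some v) : v.length = c.length := by
  obtain ⟨-, h2⟩ := vtx_eq_some h
  rcases h2 with h2 | ⟨-, h2⟩
  · simp only [Prod.mk.injEq] at h2; rw [h2.1]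
  · rw [← h2]; exact hs c

theorem IsSucc.zip {c c' : List L} {t t' : Bool} {j : List Bool}
    (hl : c.length = j.length + 1) (hl' : c'.length = j.length + 1)
    (hne : vtx s (c, t) ≠ none)
    (h : IsSucc (vtx s) (hkey (ckey e)) (c, t) (c', t')) :
    IsSucc (vW s) (kW e) (c.zip (t :: j)) (c'.zip (t' :: j)) := by
  obtain ⟨v, hv⟩ := Option.ne_none_iff_exists'.mp hne
  obtain ⟨h1, h2⟩ := h
  -- all words of the class have the same inert bits
  have key : ∀ z, vW s z = vW s (c.zip (t :: j)) → ∃ c'' t'', c''.length = j.length + 1 ∧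
      z = c''.zip (t'' :: j) ∧ vtx s (c'', t'') = vtx s (c, t) := by
    intro z hz
    rw [vW_zip hl, hv] at hz
    have hz0 : z ≠ [] := by
      rintro rfl
      rw [vW_none_iff.mpr (Or.inl rfl)] at hz
      cases hz
    obtain ⟨c'', t'', j'', h3, rfl⟩ := exists_zip hz0
    rw [vW_zip h3] at hz
    cases hv' : vtx s (c'', t'') with
    | none => rw [hv'] at hz; cases hz
    | some v' =>
      rw [hv'] at hz
      simp only [Option.map_some, Option.some.injEq, Prod.mk.injEq, List.cons.injEq,
        true_and] at hz
      obtain ⟨h4, h5⟩ := hz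
      subst h5
      exact ⟨c'', t'', h3, rfl, by rw [hv', hv, h4]⟩
  refine ⟨(vW_zip_eq_iff hl' hl).mpr h1, ?_⟩
  rw [kW_zip hl, kW_zip hl']
  rcases h2 with ⟨h3, h4⟩ | ⟨h3, h4⟩
  · left
    refine ⟨h3, fun z hz => ?_⟩
    obtain ⟨c'', t'', h5, rfl, h6⟩ := key z hz
    rw [kW_zip h5]
    exact h4 (c'', t'') h6
  · right
    refine ⟨fun z hz => ?_, fun z hz => ?_⟩
    · obtain ⟨c'', t'', h5, rfl, h6⟩ := key z hz
      rw [kW_zip h5]
      exact h3 (c'', t'') h6
    · obtain ⟨c'', t'', h5, rfl, h6⟩ := key z hz
      rw [kW_zip h5]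
      exact h4 (c'', t'') h6

include hs in
theorem EW_zip [Finite L] {c : List L} {t : Bool} {j : List Bool}
    (hl : c.length = j.length + 1) :
    (tourE s (ckey e) (c, t)).1.length = j.length + 1 ∧
    EW e s (c.zip (t :: j)) =
      (tourE s (ckey e) (c, t)).1.zip ((tourE s (ckey e) (c, t)).2 :: j) := by
  have hD := desc_finite hs
  have hk := ckey_inj (e := e) hs
  unfold EW
  rw [thW_zip hl]
  by_cases hc : s c = c
  · have h1 : oth s (c, t) = (c, t) := by unfold oth; rw [if_pos hc]
    have h2 : vtx s (c, t) = none := by unfold vtx; rw [if_pos hc]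
    have h3 : tourE s (ckey e) (c, t) = (c, t) := by
      unfold tourE; rw [h1, cs_of_none _ _ h2]
    rw [h1, h3]
    refine ⟨hl, ?_⟩
    apply cs_of_none
    rw [vW_zip hl, h2]
    rfl
  · have h1 := oth_of_ne hc t
    rw [h1]
    have h2 := tourE_spec (key := ckey e) hD hc t
    generalize tourE s (ckey e) (c, t) = y at h2
    obtain ⟨c', t'⟩ := y
    have hne : vtx s (c, !t) ≠ none := by rw [vtx_of_ne hc]; simp
    obtain ⟨v, hv⟩ := Option.ne_none_iff_exists'.mp hne
    have hl' : c'.length = j.length + 1 := by
      have h3 := h2.1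
      rw [hv] at h3
      rw [← length_vtx hs h3, length_vtx hs hv, hl]
    refine ⟨hl', ?_⟩
    apply cs_eq (vW s) (kW e) (vW_inj hs) (class_finite _ (vW_len hs))
    · rw [vW_zip hl, hv]; simp
    · exact IsSucc.zip hl hl' hne h2

include hs in
theorem EW_iterate_zip [Finite L] {c : List L} {t : Bool} {j : List Bool}
    (hl : c.length = j.length + 1) (n : ℕ) :
    ((tourE s (ckey e))^[n] (c, t)).1.length = j.length + 1 ∧
    (EW e s)^[n] (c.zip (t :: j)) = ((tourE s (ckey e))^[n] (c, t)).1.zip
      (((tourE s (ckey e))^[n] (c, t)).2 :: j) := by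
  induction n with
  | zero => exact ⟨hl, rfl⟩
  | succ n ih =>
    obtain ⟨h1, h2⟩ := ih
    rw [Function.iterate_succ_apply', Function.iterate_succ_apply', h2]
    exact EW_zip hs h1

/-! ### Regularity -/

section reg

variable [Finite L] (hA : Aut s)

theorem reg_hb : Reg (fun w : List (L × Bool) => hb w = true) :=
  Reg.head (fun o => (o.map Prod.snd).getD false = true)

theorem reg_nil {α : Type} [Finite α] : Reg (fun w : List α => w = []) := by
  refine (Reg.head (fun o : Option α => o = none)).congr (fun w => ?_)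
  cases w <;> simp

omit [Finite L] in
theorem aut_cfg : Aut (cfg : List (L × Bool) → List L) := Aut.map _

omit [Finite L] in
theorem aut_inert : Aut (inert : List (L × Bool) → List Bool) :=
  (Aut.modHead _).comp (Aut.map _)

include hA in
theorem reg_isRoot : Reg (isRoot s) :=
  reg_nil.or ((hA.comp aut_cfg).eqReg aut_cfg)

include hA in
theorem aut_V : Aut (fun w : List (L × Bool) => if hb w = true then cfg w else s (cfg w)) :=
  Aut.ite reg_hb aut_cfg (hA.comp aut_cfg)

omit [Finite L] in
theorem reg_ckey (e : L ≃ Fin N) : Reg2 (fun x y : List L => ckey e x < ckey e y) := by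
  refine ((reg_num_lt N).app (Aut.map (fun p : L × L => e p.1))
    (Aut.map (fun p : L × L => e p.2))).congr (fun w => ?_)
  unfold ckey
  simp only [List.map_map]
  rfl

include hA in
theorem reg_vW : Reg2 (fun x y : List (L × Bool) => vW s x = vW s y) := by
  have hR := reg_isRoot hA
  have e1 : Reg (fun p : List ((L × Bool) × (L × Bool)) =>
      (isRoot s (p.map Prod.fst) ↔ isRoot s (p.map Prod.snd)) ∧
      (¬ isRoot s (p.map Prod.fst) →
        ((if hb (p.map Prod.fst) = true then cfg (p.map Prod.fst) else s (cfg (p.map Prod.fst))) =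
          (if hb (p.map Prod.snd) = true then cfg (p.map Prod.snd)
            else s (cfg (p.map Prod.snd))) ∧
        inert (p.map Prod.fst) = inert (p.map Prod.snd)))) := by
    refine ((((Aut.map Prod.fst).reg hR).iff ((Aut.map Prod.snd).reg hR)).and
      ((((Aut.map Prod.fst).reg hR).not).imp (Reg.and ?_ ?_)))
    · exact ((aut_V hA).comp (Aut.map Prod.fst)).eqReg ((aut_V hA).comp (Aut.map Prod.snd))
    · exact (aut_inert.comp (Aut.map Prod.fst)).eqReg (aut_inert.comp (Aut.map Prod.snd))
  refine e1.congr (fun p => ?_)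
  beta_reduce
  unfold vW
  by_cases h1 : isRoot s (p.map Prod.fst) <;> by_cases h2 : isRoot s (p.map Prod.snd) <;>
    simp [h1, h2]

omit [Finite L] in
theorem kW_lt_iff (x y : List (L × Bool)) : kW e x < kW e y ↔
    hb x ≠ true ∧ (hb y = true ∨ ckey e (cfg x) < ckey e (cfg y)) := by
  unfold kW
  cases hb x <;> cases hb y <;> simp

theorem reg_kW (e : L ≃ Fin N) : Reg2 (fun x y : List (L × Bool) => kW e x < kW e y) := by
  have h : Reg (fun p : List ((L × Bool) × (L × Bool)) =>
      (¬ hb (p.map Prod.fst) = true) ∧ (hb (p.map Prod.snd) = true ∨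
        ckey e (cfg (p.map Prod.fst)) < ckey e (cfg (p.map Prod.snd)))) :=
    (((Aut.map Prod.fst).reg reg_hb).not).and (((Aut.map Prod.snd).reg reg_hb).or
      ((reg_ckey e).app (aut_cfg.comp (Aut.map Prod.fst)) (aut_cfg.comp (Aut.map Prod.snd))))
  exact h.congr (fun p => kW_lt_iff _ _)

include hs hA in
theorem aut_EW : Aut (EW e s) := by
  have h1 : Aut (cs (vW s) (kW e)) := by
    apply aut_cs
    · exact vW_inj hs
    · exact vW_len hs
    · exact reg_vW hA
    · exact (reg_isRoot hA).congr (fun w => vW_none_iff)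
    · exact (reg_vW hA).and ((((Aut.map Prod.fst).reg (reg_isRoot hA)).not.congr
        (fun w => not_congr vW_none_iff)).and (reg_kW e))
  have h2 : Aut (thW s) := by
    classical
    exact Aut.ite (reg_isRoot hA) Aut.id (Aut.modHead _)
  exact h1.comp h2

include hs in
theorem EW_injective : Function.Injective (EW e s) := by
  intro x y h
  have h1 := cs_injective (vW s) (kW e) (vW_inj hs) (class_finite _ (vW_len hs)) h
  unfold thW at h1
  have hmod : ∀ w : List (L × Bool), isRoot s (w.modifyHead (fun a => (a.1, !a.2))) ↔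
      isRoot s w := by
    intro w
    cases w with
    | nil => rfl
    | cons a w => simp [isRoot, cfg]
  have hinj : Function.Injective
      (fun w : List (L × Bool) => w.modifyHead (fun a => (a.1, !a.2))) := by
    apply Function.LeftInverse.injective
      (g := fun w : List (L × Bool) => w.modifyHead (fun a => (a.1, !a.2)))
    intro w
    cases w with
    | nil => rfl
    | cons a w => simp
  split_ifs at h1 with hx hy hy
  · exact h1
  · rw [h1, hmod] at hx; exact absurd hx hy
  · rw [← h1, hmod] at hy; exact absurd hy hx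
  · exact hinj h1

include hA in
theorem reg_wrapW (e : L ≃ Fin N) : Reg (wrapW e s) := by
  have h1 : Reg (fun w : List (L × Bool) => ∀ c' : List L, c'.length = w.length →
      s c' = s (cfg w) → s c' ≠ c' → ¬ ckey e (cfg w) < ckey e c') := by
    refine Reg.all ?_
    refine Reg.imp ?_ (Reg.imp ?_ (Reg.not ?_))
    · exact (hA.comp (Aut.map Prod.snd)).eqReg (hA.comp (aut_cfg.comp (Aut.map Prod.fst)))
    · exact ((hA.comp (Aut.map Prod.snd)).eqReg (Aut.map Prod.snd)).not
    · exact (reg_ckey e).app (aut_cfg.comp (Aut.map Prod.fst)) (Aut.map Prod.snd)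
  exact reg_nil.not.and (reg_hb.and (((hA.comp aut_cfg).eqReg aut_cfg).not.and
    (((hA.comp (hA.comp aut_cfg)).eqReg (hA.comp aut_cfg)).and h1)))

end reg

end words

end Pool.Agent.PPS
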